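import Pool.Agent.Lib.MP_0209a0_pr.Drf

/-!
The linked pairs connect the colourings of winding number zero.
-/

set_option autoImplicit false

namespace Pool.Agent.WSK

open Finset

variable {n : ℕ} {σ : Conf n} {X : Finset (Site n)} {f : Conf n → ℝ} {M : ℝ}

theorem ell_in_lt [NeZero n] (h : Hgt σ) (hX : Link σ X) {x : Site n} (hx : x ∈ X) {j : Fin 4}
    (hj : x + dr j ∉ X) : ell σ x < ell (sh σ X) x := by
  have h1 := ell_lt (hX.hgt h) (hX.compl h) (x := x) (j := j) (by simpa using hx)
    (by simpa using hj)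
  rwa [sh_sh_compl, ell_rot] at h1

theorem bo_nonneg (σ : Conf n) (X : Finset (Site n)) (x : Site n) : 0 ≤ bo σ X x := by
  unfold bo
  split_ifs <;> norm_num

theorem sum_bo [NeZero n] (h : Hgt σ) (hX : Link σ X) (h1 : X.Nonempty) (h2 : X ≠ univ) :
    1 ≤ ∑ x : Site n, (bo σ X x + bo (-(sh σ X)) X x) := by
  obtain ⟨x, i, hx, hi⟩ := exists_bdry h1 h2
  refine le_trans ?_ (single_le_sum (f := fun x => bo σ X x + bo (-(sh σ X)) X x)
    (fun y _ => add_nonneg (bo_nonneg _ _ _) (bo_nonneg _ _ _)) (mem_univ x))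
  have h3 := ell_in_lt h hX hx hi
  have h4 := ell_neg (hX.hgt h).pr x
  have h5 := bo_nonneg σ X x
  have h6 := bo_nonneg (-(sh σ X)) X x
  show 1 ≤ bo σ X x + bo (-(sh σ X)) X x
  rcases Nat.lt_or_ge 1 (ell σ x) with h7 | h7
  · have h8 : bo (-(sh σ X)) X x = 1 := by
      unfold bo
      rw [if_pos ⟨hx, by omega, i, hi⟩]
    linarith
  · have h8 : bo σ X x = 1 := by
      unfold bo
      rw [if_pos ⟨hx, h7, i, hi⟩]
    linarith

/-- the decrease of the maximal difference -/
theorem decrease [NeZero n] (h : Hgt σ) (hX : Link σ X) (hf : Lip f M) (hM : 0 ≤ M)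
    (hr : RotInv f) (he : f (sh σ X) - f σ = M * ((X.card : ℝ) * ((n : ℝ) ^ 2 - X.card)))
    (h1 : X.Nonempty) (h2 : X ≠ univ) : Ge f (sh σ X) - Ge f σ ≤ -M := by
  have h3 := sum_sites h hX hf hM hr he fun ζ hζ => drift hζ
  have h4 := mul_le_mul_of_nonneg_left (sum_bo h hX h1 h2) hM
  linarith

/-- height functions -/
def Ht (g : Site n → ℤ) : Prop := ∀ x i, g (x + dr i) = g x + 1 ∨ g (x + dr i) = g x - 1

/-- the colouring of a height function -/
def col (g : Site n → ℤ) : Conf n := fun x => ((g x : ℤ) : ZMod 3)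

theorem Ht.hgt {g : Site n → ℤ} (h : Ht g) : Hgt (col g) := ⟨g, fun _ => rfl, h⟩

theorem Hgt.exists_ht (h : Hgt σ) : ∃ g : Site n → ℤ, Ht g ∧ col g = σ := by
  obtain ⟨g, h1, h2⟩ := h
  exact ⟨g, h2, funext h1⟩

theorem even_all [NeZero n] {g h : Site n → ℤ} (hg : Ht g) (hh : Ht h)
    (h0 : Even (h 0 - g 0)) (x : Site n) : Even (h x - g x) := by
  classical
  by_contra hx
  obtain ⟨y, i, hy, hi⟩ := exists_bdry (n := n) (X := univ.filter fun x => Even (h x - g x))
    ⟨0, mem_filter.2 ⟨mem_univ _, h0⟩⟩ (fun h1 => hx (by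
      have h2 : x ∈ univ.filter fun x => Even (h x - g x) := by
        rw [h1]
        exact mem_univ x
      exact (mem_filter.1 h2).2))
  rw [mem_filter] at hy hi
  apply hi
  refine ⟨mem_univ _, ?_⟩
  have h2 := hy.2
  rw [Int.even_iff] at h2 ⊢
  rcases hg y i with h3 | h3 <;> rcases hh y i with h4 | h4 <;> rw [h3, h4] <;> omega

theorem Ht.min {g h : Site n → ℤ} (hg : Ht g) (hh : Ht h) (he : ∀ x, Even (h x - g x)) :
    Ht (fun x => min (h x) (g x)) := by
  intro x i
  have h1 := he x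
  have h2 := he (x + dr i)
  rw [Int.even_iff] at h1 h2
  show Min.min (h (x + dr i)) (g (x + dr i)) = Min.min (h x) (g x) + 1 ∨
    Min.min (h (x + dr i)) (g (x + dr i)) = Min.min (h x) (g x) - 1
  rcases hg x i with h3 | h3 <;> rcases hh x i with h4 | h4 <;> rw [h3, h4] at * <;> omega

theorem Ht.add {g : Site n → ℤ} (hg : Ht g) (c : ℤ) : Ht (fun x => g x + c) := by
  intro x i
  show g (x + dr i) + c = g x + c + 1 ∨ g (x + dr i) + c = g x + c - 1
  rcases hg x i with h3 | h3 <;> rw [h3]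
  · left; ring
  · right; ring

theorem link_step [NeZero n] {g h : Site n → ℤ} (hg : Ht g) (hh : Ht h)
    (he : ∀ x, h x = g x ∨ h x = g x + 2)
    (hf : ∀ (σ : Conf n) (X : Finset (Site n)), Hgt σ → Link σ X → f (sh σ X) = f σ) :
    f (col h) = f (col g) := by
  classical
  have e : col h = sh (col g) (univ.filter fun x => h x = g x + 2) := by
    funext x
    by_cases hx : h x = g x + 2
    · rw [sh_mem (by simpa using hx)]
      show ((h x : ℤ) : ZMod 3) = ((g x : ℤ) : ZMod 3) - 1
      rw [hx]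
      push_cast
      generalize ((g x : ℤ) : ZMod 3) = a
      revert a; decide
    · rw [sh_notMem (by simpa using hx)]
      show ((h x : ℤ) : ZMod 3) = ((g x : ℤ) : ZMod 3)
      rw [(he x).resolve_right hx]
  rw [e]
  refine hf _ _ hg.hgt (link_of_pr hg.hgt.pr ?_)
  rw [← e]
  exact hh.hgt.pr

theorem chain [NeZero n] {g h : Site n → ℤ} (hg : Ht g) (hh : Ht h)
    (he : ∀ x, Even (h x - g x)) (hle : ∀ x, g x ≤ h x)
    (hf : ∀ (σ : Conf n) (X : Finset (Site n)), Hgt σ → Link σ X → f (sh σ X) = f σ) :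
    f (col h) = f (col g) := by
  have hz : ∀ j : ℕ, Ht (fun x => Min.min (h x) (g x + 2 * j)) := by
    intro j
    refine (hg.add (2 * j)).min hh fun x => ?_
    have := he x
    rw [Int.even_iff] at this ⊢
    omega
  have h1 : ∀ j : ℕ, f (col fun x => Min.min (h x) (g x + 2 * j)) = f (col g) := by
    intro j
    induction j with
    | zero =>
      congr 2
      funext x
      have := hle x
      simp [this]
    | succ j ih =>
      rw [← ih]
      refine link_step (hz j) (hz (j + 1)) (fun x => ?_) hf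
      have := he x
      rw [Int.even_iff] at this
      push_cast
      omega
  obtain ⟨m, hm⟩ : ∃ m : ℕ, ∀ x, h x ≤ g x + 2 * m := by
    refine ⟨∑ x : Site n, (h x - g x).toNat, fun x => ?_⟩
    have h2 := single_le_sum (f := fun x => (h x - g x).toNat) (fun y _ => Nat.zero_le _)
      (mem_univ x)
    have h3 : (h x - g x).toNat ≤ ∑ x : Site n, (h x - g x).toNat := h2
    have h4 := Int.self_le_toNat (h x - g x)
    omega
  rw [← h1 m]
  congr 2
  funext x
  exact (min_eq_left (hm x)).symm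

/-- a function that is equal on linked pairs is constant -/
theorem const_of_link [NeZero n]
    (hf : ∀ (σ : Conf n) (X : Finset (Site n)), Hgt σ → Link σ X → f (sh σ X) = f σ)
    {σ σ' : Conf n} (h : Hgt σ) (h' : Hgt σ') : f σ' = f σ := by
  obtain ⟨g, hg, rfl⟩ := h.exists_ht
  obtain ⟨k, hk, rfl⟩ := h'.exists_ht
  -- fix the parity
  obtain ⟨k', hk', hk2, hpar⟩ : ∃ k' : Site n → ℤ, Ht k' ∧ col k' = col k ∧
      Even (k' 0 - g 0) := by
    rcases Int.even_or_odd (k 0 - g 0) with h1 | h1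
    · exact ⟨k, hk, rfl, h1⟩
    · refine ⟨fun x => k x + 3, hk.add 3, ?_, ?_⟩
      · funext x
        show ((k x + 3 : ℤ) : ZMod 3) = ((k x : ℤ) : ZMod 3)
        push_cast
        generalize ((k x : ℤ) : ZMod 3) = a
        revert a; decide
      · show Even (k 0 + 3 - g 0)
        rw [Int.odd_iff] at h1
        rw [Int.even_iff]
        omega
  rw [← hk2]
  have hev := even_all hg hk' hpar
  -- lower `g`
  set m : ℕ := ∑ x : Site n, (g x - k' x).toNat with hm
  have hmx : ∀ x, g x ≤ k' x + m := by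
    intro x
    have h2 := single_le_sum (f := fun x => (g x - k' x).toNat) (fun y _ => Nat.zero_le _)
      (mem_univ x)
    have h3 : (g x - k' x).toNat ≤ ∑ x : Site n, (g x - k' x).toNat := h2
    have h4 := Int.self_le_toNat (g x - k' x)
    omega
  have e : col (fun x => g x + (-6 * (m : ℤ))) = col g := by
    funext x
    show ((g x + (-6 * (m : ℤ)) : ℤ) : ZMod 3) = ((g x : ℤ) : ZMod 3)
    push_cast
    have : (6 : ZMod 3) = 0 := by decide
    rw [this]
    ring
  rw [← e]
  refine chain (hg.add _) hk' (fun x => ?_) (fun x => ?_) hf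
  · have := hev x
    rw [Int.even_iff] at this ⊢
    omega
  · have := hmx x
    show g x + (-6 * (m : ℤ)) ≤ k' x
    omega

end Pool.Agent.WSK
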