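import Pool.Agent.Lib.MP_0209a0_pr.Def

/-!
Proper colourings, classes, heights, towers.
-/

set_option autoImplicit false

namespace Pool.Agent.WSK

open Finset

variable {n : ℕ}

/-- the four directions -/
def dr {n : ℕ} (i : Fin 4) : Site n :=
  if i = 0 then (1, 0) else if i = 1 then (-1, 0) else if i = 2 then (0, 1) else (0, -1)

/-- the opposite direction -/
def op (i : Fin 4) : Fin 4 := if i = 0 then 1 else if i = 1 then 0 else if i = 2 then 3 else 2

theorem dr_op (i : Fin 4) : (dr (op i) : Site n) = - dr i := by
  fin_cases i <;> simp [dr, op]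

theorem op_op (i : Fin 4) : op (op i) = i := by
  fin_cases i <;> rfl

theorem op_ne (i : Fin 4) : op i ≠ i := by
  fin_cases i <;> decide

/-- proper colourings -/
def Pr (σ : Conf n) : Prop := ∀ x i, σ (x + dr i) ≠ σ x

/-- colourings with a height function on the torus (winding number zero) -/
def Hgt (σ : Conf n) : Prop :=
  ∃ h : Site n → ℤ, (∀ x, ((h x : ℤ) : ZMod 3) = σ x) ∧
    ∀ x i, h (x + dr i) = h x + 1 ∨ h (x + dr i) = h x - 1

/-- the number of lower neighbours -/
def ell (σ : Conf n) (x : Site n) : ℕ := (univ.filter fun i : Fin 4 => σ (x + dr i) = σ x - 1).card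

/-- the length of the descending run from `x` in the direction `i` (number of sites) -/
noncomputable def run (σ : Conf n) (x : Site n) (i : Fin 4) : ℕ :=
  sInf {k : ℕ | σ (x + (k + 1) • dr i) = σ (x + k • dr i) + 1} + 1

/-- the sites of the descending run -/
noncomputable def tw (σ : Conf n) (x : Site n) (i : Fin 4) : Finset (Site n) :=
  (range (run σ x i)).image fun k => x + k • dr i

open Classical in
/-- the direction of a lower neighbour, if there is one -/
noncomputable def td (σ : Conf n) (x : Site n) : Fin 4 :=
  if h : ∃ i, σ (x + dr i) = σ x - 1 then h.choose else 0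

/-- the length of the tower at `x` -/
noncomputable def kk (σ : Conf n) (x : Site n) : ℕ := run σ x (td σ x)

/-- the tower at `x` -/
noncomputable def Tw (σ : Conf n) (x : Site n) : Finset (Site n) := tw σ x (td σ x)

/-- subtract `1` from the colours of the sites of `X` (this raises the heights by `2`) -/
def sh (σ : Conf n) (X : Finset (Site n)) : Conf n := fun y => if y ∈ X then σ y - 1 else σ y

/-- raise the tower at `x` -/
noncomputable def up (σ : Conf n) (x : Site n) : Conf n := sh σ (Tw σ x)

/-- the rate of the raising of the tower at `x` -/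
noncomputable def rt (σ : Conf n) (x : Site n) : ℝ :=
  if ell σ x = 0 then 2 else if ell σ x = 1 then 1 / (kk σ x : ℝ) else 0

/-- across the boundary of `X` the colour increases by one -/
def Link (σ : Conf n) (X : Finset (Site n)) : Prop :=
  ∀ x i, x ∈ X → x + dr i ∉ X → σ (x + dr i) = σ x + 1

/-- functions invariant under the rotation of the colours -/
def RotInv (f : Conf n → ℝ) : Prop := ∀ σ, f (fun x => σ x + 1) = f σ

variable [NeZero n]

open Classical in
/-- the proper colourings -/
noncomputable def Om (n : ℕ) [NeZero n] : Finset (Conf n) := univ.filter fun σ => Pr σ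

open Classical in
/-- the proper colourings of winding number zero -/
noncomputable def Om0 (n : ℕ) [NeZero n] : Finset (Conf n) := univ.filter fun σ => Hgt σ

open Classical in
/-- the proper colourings with the same class of the colour `c` -/
noncomputable def Cls (c : ZMod 3) (σ : Conf n) : Finset (Conf n) :=
  (Om n).filter fun τ => ∀ x, τ x = c ↔ σ x = c

/-- the sum of the variances given the class of the colour `c`, times two -/
noncomputable def Dc (c : ZMod 3) (f : Conf n → ℝ) : ℝ :=
  ∑ σ ∈ Om n, (∑ τ ∈ Cls c σ, (f σ - f τ) ^ 2) / ((Cls c σ).card : ℝ)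

/-- the Dirichlet form at zero temperature, up to a factor -/
noncomputable def Df (f : Conf n → ℝ) : ℝ := ∑ c : ZMod 3, Dc c f

/-- the Dirichlet form of the single flips -/
noncomputable def Phi (f : Conf n → ℝ) : ℝ :=
  ∑ x : Site n, ∑ σ ∈ (Om n).filter (fun σ => ell σ x = 0), (f σ - f (sh σ {x})) ^ 2

/-- the Dirichlet form of the towers -/
noncomputable def En (f : Conf n → ℝ) : ℝ :=
  ∑ σ ∈ Om0 n, ∑ x : Site n, rt σ x * (f (up σ x) - f σ) ^ 2

end Pool.Agent.WSK
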