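import Mathlib

/-!
The 3-state antiferromagnetic Potts model on the `n × n` torus and the
Wang-Swendsen-Kotecky dynamics.
-/

set_option autoImplicit false

namespace Pool.Agent.WSK

open Finset

/-- The sites of the `n × n` torus. -/
abbrev Site (n : ℕ) : Type := ZMod n × ZMod n

/-- The two unit vectors. -/
def ev {n : ℕ} (i : Fin 2) : Site n := if i = 0 then (1, 0) else (0, 1)

/-- The edges of the torus: `(x, i)` joins the sites `x` and `x + ev i` (for `n ≥ 3` every pair of
nearest neighbours occurs exactly once). -/
abbrev Edge (n : ℕ) : Type := Site n × Fin 2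

/-- The configurations: maps from the sites to the three colours. -/
abbrev Conf (n : ℕ) : Type := Site n → ZMod 3

variable {n : ℕ} [NeZero n]

/-- The number of edges whose two endpoints have the same colour. -/
def mono (σ : Conf n) : ℕ := (univ.filter fun e : Edge n => σ e.1 = σ (e.1 + ev e.2)).card

/-- The antiferromagnetic Potts measure with `1 - p = exp (-β)` (`p = 1`: the uniform measure on
the proper colourings). -/
noncomputable def potts (p : ℝ) (σ : Conf n) : ℝ :=
  (1 - p) ^ mono σ / ∑ τ : Conf n, (1 - p) ^ mono τ

/-- The edges whose endpoints carry the two colours different from `c`, one each. -/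
def elig (σ : Conf n) (c : ZMod 3) : Finset (Edge n) :=
  univ.filter fun e => σ e.1 ≠ c ∧ σ (e.1 + ev e.2) ≠ c ∧ σ e.1 ≠ σ (e.1 + ev e.2)

/-- `τ` arises from `σ` by exchanging the two colours different from `c` (this is the map
`a ↦ 2 c - a`) on some of the connected components of the graph with the edges `ω`. -/
def Compat (σ τ : Conf n) (c : ZMod 3) (ω : Finset (Edge n)) : Prop :=
  (∀ x, τ x = σ x ∨ τ x = 2 * c - σ x) ∧
    ∀ e ∈ ω, (τ e.1 = σ e.1 ↔ τ (e.1 + ev e.2) = σ (e.1 + ev e.2))

open Classical in
/-- The transition matrix of the dynamics: choose the colour `c` that is kept, declare each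
eligible edge open with probability `p`, exchange the two other colours independently with
probability `1/2` on every component of open edges (all `τ` with `Compat` are equally likely). -/
noncomputable def step (p : ℝ) (σ τ : Conf n) : ℝ :=
  ∑ c : ZMod 3, 1 / 3 * ∑ ω ∈ (elig σ c).powerset,
    p ^ ω.card * (1 - p) ^ ((elig σ c).card - ω.card) *
      (if Compat σ τ c ω then 1 / ((univ.filter fun τ' => Compat σ τ' c ω).card : ℝ) else 0)

/-- The relaxation time of the dynamics on the `n × n` torus is at most `T`: the variance is at
most `T` times the Dirichlet form, for all functions. -/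
def Relax (n : ℕ) [NeZero n] (p T : ℝ) : Prop :=
  ∀ f : Conf n → ℝ, ∑ σ, ∑ τ, potts p σ * potts p τ * (f σ - f τ) ^ 2 ≤
    T * ∑ σ, ∑ τ, potts p σ * step p σ τ * (f σ - f τ) ^ 2

end Pool.Agent.WSK
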