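import Pool.Agent.Lib.MP_0209a0_pr.Mg.G001

/-!
The drift of the sum of the heights vanishes.
-/

set_option autoImplicit false

namespace Pool.Agent.WSK

open Finset

variable {n : ℕ} {σ : Conf n}

theorem ell_eq_sum (σ : Conf n) (x : Site n) :
    (ell σ x : ℝ) = ∑ i : Fin 4, if σ (x + dr i) = σ x - 1 then (1 : ℝ) else 0 := by
  unfold ell
  rw [card_filter]
  push_cast
  rfl

theorem ell_neg (h : Pr σ) (x : Site n) : ell (-σ) x + ell σ x = 4 := by
  have h1 : ell (-σ) x = (univ.filter fun i : Fin 4 => ¬ σ (x + dr i) = σ x - 1).card := by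
    unfold ell
    congr 1
    ext i
    simp only [mem_filter, mem_univ, true_and]
    show -σ (x + dr i) = -σ x - 1 ↔ _
    constructor
    · intro h2 h3
      rw [h3] at h2
      revert h2
      generalize σ x = a
      revert a; decide
    · intro h2
      have h3 := (h.cases x i).resolve_right h2
      rw [h3]
      ring
  rw [h1]
  unfold ell
  rw [add_comm, card_filter_add_card_filter_not]
  simp

theorem sum_ell [NeZero n] (σ : Conf n) :
    ∑ x : Site n, (ell (-σ) x : ℝ) = ∑ x : Site n, (ell σ x : ℝ) := by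
  simp only [ell_eq_sum]
  rw [sum_comm, sum_comm (s := univ) (t := univ)
    (f := fun x i => if σ (x + dr i) = σ x - 1 then (1 : ℝ) else 0)]
  refine Finset.sum_nbij' op op (fun _ _ => mem_univ _) (fun _ _ => mem_univ _)
    (fun i _ => op_op i) (fun i _ => op_op i) fun i _ => ?_
  refine Finset.sum_nbij' (fun x => x + dr i) (fun x => x + dr (op i)) (fun _ _ => mem_univ _)
    (fun _ _ => mem_univ _) (fun x _ => add_op x i) (fun x _ => ?_) fun x _ => ?_
  · have := add_op x (op i)
    rwa [op_op] at this
  · rw [add_op]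
    congr 1
    show (-σ (x + dr i) = -σ x - 1) = (σ x = σ (x + dr i) - 1)
    apply propext
    constructor
    · intro h
      linear_combination h
    · intro h
      linear_combination h

theorem rt_kk (h : Pr σ) (x : Site n) :
    rt σ x * kk σ x = if ell σ x = 0 then 2 else if ell σ x = 1 then 1 else 0 := by
  split_ifs with h1 h2
  · rw [rt_of_zero h1, kk_zero h h1]
    norm_num
  · rw [rt_of_one h2]
    have h3 : (kk σ x : ℝ) ≠ 0 := by
      have := kk_pos σ x
      positivity
    field_simp
  · rw [rt_zero (by omega), zero_mul]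

/-- the drift of the sum of the heights vanishes -/
theorem drift [NeZero n] (h : Hgt σ) :
    ∑ x : Site n, rt σ x * kk σ x = ∑ x : Site n, rt (-σ) x * kk (-σ) x := by
  have key : ∀ x : Site n, rt σ x * kk σ x - rt (-σ) x * kk (-σ) x =
      ((ell (-σ) x : ℝ) - ell σ x) / 2 := by
    intro x
    rw [rt_kk h.pr, rt_kk h.neg.pr]
    have h1 := ell_neg h.pr x
    have h2 : ell (-σ) x = 4 - ell σ x := by omega
    have h3 : ell σ x ≤ 4 := by omega
    rw [h2]
    interval_cases ell σ x <;> norm_num
  have h1 : ∑ x : Site n, (rt σ x * kk σ x - rt (-σ) x * kk (-σ) x) = 0 := by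
    simp only [key]
    rw [← sum_div, sum_sub_distrib, sum_ell, sub_self, zero_div]
  rw [sum_sub_distrib] at h1
  linarith

theorem z3_step (m : ℤ) : ((m + 1 : ℤ) : ZMod 3) = (m : ZMod 3) + 1 := by push_cast; rfl

/-- there is a site of the boundary -/
theorem exists_bdry [NeZero n] {X : Finset (Site n)} (h1 : X.Nonempty) (h2 : X ≠ univ) :
    ∃ x i, x ∈ X ∧ x + dr i ∉ X := by
  by_contra hcon
  push Not at hcon
  apply h2
  obtain ⟨x, hx⟩ := h1
  have s1 : ∀ a : ℕ, x + a • (dr 0 : Site n) ∈ X := by
    intro a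
    induction a with
    | zero => simpa using hx
    | succ a ih =>
      rw [pos_succ]
      exact hcon _ 0 ih
  have s2 : ∀ a b : ℕ, x + a • (dr 0 : Site n) + b • (dr 2 : Site n) ∈ X := by
    intro a b
    induction b with
    | zero => simpa using s1 a
    | succ b ih =>
      rw [pos_succ]
      exact hcon _ 2 ih
  ext y
  simp only [mem_univ, iff_true]
  have h3 := s2 (y.1 - x.1).val (y.2 - x.2).val
  convert h3 using 1
  ext
  · simp [dr]
  · simp [dr]


end Pool.Agent.WSK
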