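import Pool.Agent.Lib.MP_0209a0_pr.Tz

/-!
The dynamics with all eligible edges open, on all configurations.
-/

set_option autoImplicit false
set_option linter.unusedSectionVars false

namespace Pool.Agent.WSK

open Finset

variable {n : ℕ} [NeZero n] {σ τ ζ : Conf n} {c : ZMod 3} {X Y Z K : Finset (Site n)} {y : Site n}
  {ω : Finset (Edge n)}

/-- the monochromatic edges -/
def mE (σ : Conf n) : Finset (Edge n) := univ.filter fun e => σ e.1 = σ (e.1 + ev e.2)

theorem mono_eq (σ : Conf n) : mono σ = (mE σ).card := rfl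

theorem mem_mE {e : Edge n} : e ∈ mE σ ↔ σ e.1 = σ (e.1 + ev e.2) := by
  unfold mE
  simp

theorem mem_elig {e : Edge n} :
    e ∈ elig σ c ↔ σ e.1 ≠ c ∧ σ (e.1 + ev e.2) ≠ c ∧ σ e.1 ≠ σ (e.1 + ev e.2) := by
  unfold elig
  simp

theorem card_edge : Fintype.card (Edge n) = 2 * n ^ 2 := by
  rw [Fintype.card_prod, card_site, Fintype.card_fin, mul_comm]

open Classical in
/-- the configurations that can be reached -/
noncomputable def Nb (c : ZMod 3) (σ : Conf n) (ω : Finset (Edge n)) : Finset (Conf n) :=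
  univ.filter fun τ => Compat σ τ c ω

theorem mem_Nb : τ ∈ Nb c σ ω ↔ Compat σ τ c ω := by
  unfold Nb
  simp

theorem Compat.refl' (σ : Conf n) (c : ZMod 3) (ω : Finset (Edge n)) : Compat σ σ c ω :=
  ⟨fun _ => Or.inl rfl, fun _ _ => ⟨fun _ => rfl, fun _ => rfl⟩⟩

theorem Nb_pos (c : ZMod 3) (σ : Conf n) (ω : Finset (Edge n)) : 0 < (Nb c σ ω).card :=
  card_pos.2 ⟨σ, mem_Nb.2 (Compat.refl' σ c ω)⟩

/-- the transition with the kept colour `c` and all eligible edges open -/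
noncomputable def S1 (c : ZMod 3) (σ τ : Conf n) : ℝ := by
  classical
  exact if Compat σ τ c (elig σ c) then 1 / ((Nb c σ (elig σ c)).card : ℝ) else 0

theorem S1_nonneg (c : ZMod 3) (σ τ : Conf n) : 0 ≤ S1 c σ τ := by
  unfold S1
  split_ifs <;> positivity

/-- the transition with all eligible edges open -/
noncomputable def T1 (σ τ : Conf n) : ℝ := 1 / 3 * ∑ c : ZMod 3, S1 c σ τ

theorem T1_nonneg (σ τ : Conf n) : 0 ≤ T1 σ τ :=
  mul_nonneg (by norm_num) (sum_nonneg fun c _ => S1_nonneg c σ τ)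

theorem step_ge {p : ℝ} (hp0 : 0 ≤ p) (hp1 : p ≤ 1) (σ τ : Conf n) :
    p ^ (2 * n ^ 2) * T1 σ τ ≤ step p σ τ := by
  classical
  unfold step T1
  rw [mul_left_comm, mul_sum, mul_sum]
  refine sum_le_sum fun c _ => ?_
  refine mul_le_mul_of_nonneg_left ?_ (by norm_num)
  refine le_trans ?_ (single_le_sum (f := fun ω : Finset (Edge n) =>
    p ^ ω.card * (1 - p) ^ ((elig σ c).card - ω.card) *
      (if Compat σ τ c ω then 1 / ((univ.filter fun τ' => Compat σ τ' c ω).card : ℝ) else 0))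
    (fun ω _ => ?_) (mem_powerset.2 (subset_rfl : elig σ c ⊆ elig σ c)))
  · simp only [Nat.sub_self, pow_zero, mul_one]
    have h1 : S1 c σ τ = (if Compat σ τ c (elig σ c) then
        1 / ((univ.filter fun τ' => Compat σ τ' c (elig σ c)).card : ℝ) else 0) := by
      unfold S1 Nb
      congr
    rw [← h1]
    refine mul_le_mul_of_nonneg_right ?_ (S1_nonneg c σ τ)
    refine pow_le_pow_of_le_one hp0 hp1 ?_
    rw [← card_edge]
    exact card_le_univ _
  · refine mul_nonneg (mul_nonneg (pow_nonneg hp0 _) (pow_nonneg (by linarith) _)) ?_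
    split_ifs <;> positivity

/-! ### proper colourings -/

theorem ev_dr (i : Fin 2) : (ev i : Site n) = dr 0 ∨ (ev i : Site n) = dr 2 := by
  fin_cases i
  · left; rfl
  · right; rfl

theorem Pr_iff : Pr σ ↔ mono σ = 0 := by
  rw [mono_eq, card_eq_zero, eq_empty_iff_forall_notMem]
  constructor
  · intro h e he
    rw [mem_mE] at he
    rcases ev_dr (n := n) e.2 with h1 | h1
    · rw [h1] at he
      exact h _ _ he.symm
    · rw [h1] at he
      exact h _ _ he.symm
  · intro h x i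
    have key : ∀ j : Fin 2, ∀ x, σ (x + ev j) ≠ σ x := by
      intro j x h1
      exact h (x, j) (mem_mE.2 h1.symm)
    have key2 : ∀ j : Fin 2, ∀ x, σ (x - ev j) ≠ σ x := by
      intro j x h1
      have h2 := key j (x - ev j)
      rw [sub_add_cancel] at h2
      exact h2 h1.symm
    fin_cases i
    · exact key 0 x
    · have h3 := key2 0 x
      have e : (dr 1 : Site n) = -ev 0 := by simp [dr, ev]
      show σ (x + dr 1) ≠ σ x
      rw [e, ← sub_eq_add_neg]
      exact h3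
    · exact key 1 x
    · have h3 := key2 1 x
      have e : (dr 3 : Site n) = -ev 1 := by simp [dr, ev]
      show σ (x + dr 3) ≠ σ x
      rw [e, ← sub_eq_add_neg]
      exact h3

theorem Compat.c_iff (h : Compat σ τ c ω) (x : Site n) : τ x = c ↔ σ x = c := by
  rcases h.1 x with h1 | h1
  · rw [h1]
  · rw [h1]
    clear h1 h
    generalize σ x = a
    revert a c; decide

theorem z3_two (a b c : ZMod 3) (h1 : a ≠ c) (h2 : b ≠ c) : b = a ∨ b = 2 * c - a := by
  revert a b c; decide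

theorem z3_swap_ne (a c : ZMod 3) (h1 : a ≠ c) : 2 * c - a ≠ a := by
  revert a c; decide

theorem compat_iff (h : Pr σ) (c : ZMod 3) (τ : Conf n) :
    Compat σ τ c (elig σ c) ↔ τ ∈ Cls c σ := by
  rw [mem_Cls]
  have hE : ∀ e : Edge n, σ e.1 ≠ σ (e.1 + ev e.2) := by
    intro e h1
    have h2 := Pr_iff.1 h
    rw [mono_eq, card_eq_zero, eq_empty_iff_forall_notMem] at h2
    exact h2 e (mem_mE.2 h1)
  constructor
  · intro hc
    refine ⟨?_, hc.c_iff⟩
    rw [Pr_iff, mono_eq, card_eq_zero, eq_empty_iff_forall_notMem]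
    intro e he
    rw [mem_mE] at he
    have h1 := hE e
    by_cases hc1 : σ e.1 = c
    · have h2 := (hc.c_iff e.1).2 hc1
      rw [h2] at he
      have h3 := (hc.c_iff _).1 he.symm
      exact h1 (hc1.trans h3.symm)
    · by_cases hc2 : σ (e.1 + ev e.2) = c
      · have h2 := (hc.c_iff _).2 hc2
        rw [h2] at he
        exact hc1 ((hc.c_iff _).1 he)
      · have h2 := hc.2 e (mem_elig.2 ⟨hc1, hc2, h1⟩)
        by_cases h3 : τ e.1 = σ e.1
        · rw [h3, h2.1 h3] at he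
          exact h1 he
        · have h4 := (hc.1 e.1).resolve_left h3
          have h5 := (hc.1 (e.1 + ev e.2)).resolve_left fun h6 => h3 (h2.2 h6)
          rw [h4, h5] at he
          exact h1 (sub_right_injective he)
  · rintro ⟨hp, hcl⟩
    refine ⟨fun x => ?_, fun e he => ?_⟩
    · by_cases hx : σ x = c
      · left
        rw [hx, (hcl x).2 hx]
      · exact z3_two _ _ c hx fun h1 => hx ((hcl x).1 h1)
    · rw [mem_elig] at he
      have h1 : τ e.1 ≠ τ (e.1 + ev e.2) := by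
        intro h1
        have h2 := Pr_iff.1 hp
        rw [mono_eq, card_eq_zero, eq_empty_iff_forall_notMem] at h2
        exact h2 e (mem_mE.2 h1)
      have h2 : τ e.1 ≠ c := fun h3 => he.1 ((hcl _).1 h3)
      have h3 : τ (e.1 + ev e.2) ≠ c := fun h3 => he.2.1 ((hcl _).1 h3)
      obtain ⟨h4, h5, h6⟩ := he
      have h7 := (z3_two _ _ c h2 h3).resolve_left h1.symm
      have h8 := (z3_two _ _ c h4 h5).resolve_left h6.symm
      rw [h7, h8, sub_right_inj]

theorem Nb_eq_Cls (h : Pr σ) (c : ZMod 3) : Nb c σ (elig σ c) = Cls c σ := by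
  ext τ
  rw [mem_Nb, compat_iff h]

theorem sum_S1 (h : Pr σ) (c : ZMod 3) (g : Conf n → ℝ) :
    ∑ τ, S1 c σ τ * g τ = (∑ τ ∈ Cls c σ, g τ) / ((Cls c σ).card : ℝ) := by
  classical
  have h1 : Cls c σ = univ.filter fun τ => Compat σ τ c (elig σ c) := by
    ext τ
    rw [← compat_iff h]
    simp
  have h2 : ∀ τ, S1 c σ τ * g τ = if Compat σ τ c (elig σ c) then g τ / ((Cls c σ).card : ℝ)
      else 0 := by
    intro τ
    unfold S1
    rw [Nb_eq_Cls h]
    split_ifs
    · ring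
    · ring
  simp only [h2]
  rw [← sum_filter, ← h1, sum_div]

/-- the Dirichlet form at zero temperature -/
theorem Df_eq (f : Conf n → ℝ) :
    Df f = 3 * ∑ σ ∈ Om n, ∑ τ, T1 σ τ * (f σ - f τ) ^ 2 := by
  have h1 : ∀ σ ∈ Om n, ∑ τ, T1 σ τ * (f σ - f τ) ^ 2 =
      1 / 3 * ∑ c : ZMod 3, (∑ τ ∈ Cls c σ, (f σ - f τ) ^ 2) / ((Cls c σ).card : ℝ) := by
    intro σ hσ
    rw [mem_Om] at hσ
    simp only [← sum_S1 hσ]
    rw [sum_comm, mul_sum]
    refine sum_congr rfl fun τ _ => ?_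
    unfold T1
    rw [mul_assoc, sum_mul]
  rw [sum_congr rfl h1, ← mul_sum, sum_comm]
  unfold Df Dc
  ring

/-! ### the energy does not increase -/

theorem mE_sub (hc : Compat σ τ c (elig σ c)) : mE τ ⊆ mE σ := by
  intro e he
  by_contra h0
  rw [mem_mE] at he h0
  by_cases hc1 : σ e.1 = c
  · have h2 := (hc.c_iff e.1).2 hc1
    rw [h2] at he
    have h3 := (hc.c_iff _).1 he.symm
    exact h0 (hc1.trans h3.symm)
  · by_cases hc2 : σ (e.1 + ev e.2) = c
    · have h2 := (hc.c_iff _).2 hc2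
      rw [h2] at he
      exact hc1 ((hc.c_iff _).1 he)
    · have h2 := hc.2 e (mem_elig.2 ⟨hc1, hc2, h0⟩)
      by_cases h3 : τ e.1 = σ e.1
      · rw [h3, h2.1 h3] at he
        exact h0 he
      · have h4 := (hc.1 e.1).resolve_left h3
        have h5 := (hc.1 (e.1 + ev e.2)).resolve_left fun h6 => h3 (h2.2 h6)
        rw [h4, h5] at he
        exact h0 (sub_right_injective he)

theorem elig_sub (hc : Compat σ τ c (elig σ c)) : elig σ c ⊆ elig τ c := by
  intro e he
  have h1 := mem_elig.1 he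
  rw [mem_elig]
  refine ⟨fun h2 => h1.1 ((hc.c_iff _).1 h2), fun h2 => h1.2.1 ((hc.c_iff _).1 h2), fun h2 => ?_⟩
  exact h1.2.2 (mem_mE.1 (mE_sub hc (mem_mE.2 h2)))

/-- the edges that have been repaired -/
theorem mE_eq (hc : Compat σ τ c (elig σ c)) : mE σ = mE τ ∪ (elig τ c \ elig σ c) := by
  ext e
  rw [mem_union, mem_sdiff]
  constructor
  · intro he
    by_cases h1 : e ∈ mE τ
    · exact Or.inl h1
    · right
      have h2 := mem_mE.1 he
      have h3 : τ e.1 ≠ τ (e.1 + ev e.2) := fun h4 => h1 (mem_mE.2 h4)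
      have h5 : σ e.1 ≠ c := by
        intro h6
        have h7 := (hc.c_iff e.1).2 h6
        have h8 := (hc.c_iff (e.1 + ev e.2)).2 (h2 ▸ h6)
        exact h3 (h7.trans h8.symm)
      have h6 : σ (e.1 + ev e.2) ≠ c := fun h7 => h5 (h2.trans h7)
      refine ⟨mem_elig.2 ⟨fun h7 => h5 ((hc.c_iff _).1 h7), fun h7 => h6 ((hc.c_iff _).1 h7), h3⟩,
        fun h7 => (mem_elig.1 h7).2.2 h2⟩
  · rintro (h1 | ⟨h1, h2⟩)
    · exact mE_sub hc h1
    · rw [mem_elig] at h1 h2
      rw [mem_mE]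
      by_contra h3
      exact h2 ⟨fun h4 => h1.1 ((hc.c_iff _).2 h4), fun h4 => h1.2.1 ((hc.c_iff _).2 h4), h3⟩

theorem mono_add (hc : Compat σ τ c (elig σ c)) :
    mono σ = mono τ + (elig τ c \ elig σ c).card := by
  rw [mono_eq, mono_eq, mE_eq hc, card_union_of_disjoint]
  rw [disjoint_left]
  intro e h1 h2
  exact (mem_elig.1 (mem_sdiff.1 h2).1).2.2 (mem_mE.1 h1)

/-! ### the classes -/

theorem z3_inv (a b c : ZMod 3) (h : b = a ∨ b = 2 * c - a) : a = b ∨ a = 2 * c - b := by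
  revert a b c; decide

theorem Compat.symm' (h : Compat σ τ c ω) : Compat τ σ c ω :=
  ⟨fun x => z3_inv _ _ _ (h.1 x), fun e he => by
    rw [eq_comm, h.2 e he, eq_comm]⟩

theorem z3_tr1 (a b d c : ZMod 3) (h : b = a ∨ b = 2 * c - a) (h' : d = b ∨ d = 2 * c - b) :
    d = a ∨ d = 2 * c - a := by
  revert a b d c; decide

theorem z3_tr2 (a b d c : ZMod 3) (ha : a ≠ c) (h : b = a ∨ b = 2 * c - a)
    (h' : d = b ∨ d = 2 * c - b) : d = a ↔ (b = a ↔ d = b) := by
  revert a b d c; decide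

theorem Compat.trans' (h : Compat σ τ c ω) (h' : Compat τ ζ c ω)
    (hω : ∀ e ∈ ω, σ e.1 ≠ c ∧ σ (e.1 + ev e.2) ≠ c) : Compat σ ζ c ω := by
  refine ⟨fun x => z3_tr1 _ _ _ _ (h.1 x) (h'.1 x), fun e he => ?_⟩
  obtain ⟨h1, h2⟩ := hω e he
  rw [z3_tr2 _ _ _ c h1 (h.1 _) (h'.1 _), z3_tr2 _ _ _ c h2 (h.1 _) (h'.1 _), h.2 e he,
    h'.2 e he]

theorem Nb_congr (h : Compat σ τ c ω) (hω : ∀ e ∈ ω, σ e.1 ≠ c ∧ σ (e.1 + ev e.2) ≠ c) :
    Nb c σ ω = Nb c τ ω := by
  ext ζ
  rw [mem_Nb, mem_Nb]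
  constructor
  · intro h1
    refine h.symm'.trans' h1 fun e he => ?_
    have := hω e he
    exact ⟨fun h2 => this.1 ((h.c_iff _).1 h2), fun h2 => this.2 ((h.c_iff _).1 h2)⟩
  · intro h1
    exact h.trans' h1 hω

/-- the transitions into `τ` from higher energy -/
theorem into_le (c : ZMod 3) (τ : Conf n) (k : ℕ) :
    ∑ σ ∈ univ.filter (fun σ : Conf n => mono σ = mono τ + k), S1 c σ τ ≤
      ((2 * n ^ 2 : ℕ) : ℝ) ^ k := by
  classical
  have e1 : ∑ σ ∈ univ.filter (fun σ : Conf n => mono σ = mono τ + k), S1 c σ τ =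
      ∑ σ ∈ (univ.filter (fun σ : Conf n => mono σ = mono τ + k)).filter
        (fun σ => Compat σ τ c (elig σ c)), 1 / ((Nb c σ (elig σ c)).card : ℝ) := by
    rw [sum_filter (p := fun σ => Compat σ τ c (elig σ c))]
    refine sum_congr rfl fun σ _ => ?_
    unfold S1
    congr
  rw [e1]
  set A := (univ.filter (fun σ : Conf n => mono σ = mono τ + k)).filter
        (fun σ => Compat σ τ c (elig σ c)) with hA
  have hmaps : ∀ σ ∈ A, elig τ c \ elig σ c ∈ powersetCard k (univ : Finset (Edge n)) := by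
    intro σ hσ
    rw [hA, mem_filter, mem_filter] at hσ
    rw [mem_powersetCard]
    refine ⟨subset_univ _, ?_⟩
    have h1 := mono_add hσ.2
    have h2 := hσ.1.2
    omega
  rw [← sum_fiberwise_of_maps_to hmaps]
  have hR : ∀ R ∈ powersetCard k (univ : Finset (Edge n)),
      ∑ σ ∈ A.filter (fun σ => elig τ c \ elig σ c = R),
        1 / ((Nb c σ (elig σ c)).card : ℝ) ≤ 1 := by
    intro R _
    have h1 : ∀ σ ∈ A.filter (fun σ => elig τ c \ elig σ c = R),
        elig σ c = elig τ c \ R ∧ Compat σ τ c (elig τ c \ R) ∧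
          Nb c σ (elig σ c) = Nb c τ (elig τ c \ R) := by
      intro σ hσ
      rw [mem_filter, hA, mem_filter] at hσ
      obtain ⟨⟨-, h2⟩, h3⟩ := hσ
      have h4 : elig σ c = elig τ c \ R := by
        rw [← h3, sdiff_sdiff_right_self, inf_eq_inter]
        exact (inter_eq_right.2 (elig_sub h2)).symm
      refine ⟨h4, by rwa [← h4], ?_⟩
      rw [← h4]
      refine Nb_congr h2 fun e he => ?_
      rw [mem_elig] at he
      exact ⟨he.1, he.2.1⟩
    have h2 : ∑ σ ∈ A.filter (fun σ => elig τ c \ elig σ c = R),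
        1 / ((Nb c σ (elig σ c)).card : ℝ) =
        ∑ σ ∈ A.filter (fun σ => elig τ c \ elig σ c = R),
        1 / ((Nb c τ (elig τ c \ R)).card : ℝ) := by
      refine sum_congr rfl fun σ hσ => ?_
      rw [(h1 σ hσ).2.2]
    rw [h2]
    have h3 : A.filter (fun σ => elig τ c \ elig σ c = R) ⊆ Nb c τ (elig τ c \ R) := by
      intro σ hσ
      rw [mem_Nb]
      exact (h1 σ hσ).2.1.symm'
    refine (sum_le_sum_of_subset_of_nonneg h3 fun _ _ _ => by positivity).trans (le_of_eq ?_)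
    rw [sum_const, nsmul_eq_mul]
    have := Nb_pos c τ (elig τ c \ R)
    field_simp
  refine (sum_le_sum hR).trans ?_
  rw [sum_const, nsmul_eq_mul, mul_one, card_powersetCard, card_univ, card_edge]
  exact_mod_cast Nat.choose_le_pow _ _

/-! ### the energy drops with probability at least one third -/

/-- the parity of a site -/
def par (h : 2 ∣ n) (x : Site n) : ZMod 2 :=
  ZMod.castHom h (ZMod 2) x.1 + ZMod.castHom h (ZMod 2) x.2

theorem par_ev (h : 2 ∣ n) (x : Site n) (i : Fin 2) : par h (x + ev i) = par h x + 1 := by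
  unfold par
  fin_cases i
  · show ZMod.castHom h (ZMod 2) (x.1 + 1) + ZMod.castHom h (ZMod 2) (x.2 + 0) = _
    simp only [map_add, map_one, add_zero]
    ring
  · show ZMod.castHom h (ZMod 2) (x.1 + 0) + ZMod.castHom h (ZMod 2) (x.2 + 1) = _
    simp only [map_add, map_one, add_zero]
    ring

/-- the type of a site -/
def ty (h : 2 ∣ n) (c : ZMod 3) (σ : Conf n) (x : Site n) : ZMod 2 :=
  par h x + if σ x = c + 1 then 1 else 0

theorem ty_aux (u : ZMod 2) (a b c : ZMod 3) (h1 : a ≠ c) (h2 : b ≠ c) :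
    (u + (if a = c + 1 then 1 else 0) = (u + 1) + (if b = c + 1 then 1 else 0)) ↔ a ≠ b := by
  revert u a b c; decide

/-- the partial exchange -/
def Ph (h : 2 ∣ n) (c : ZMod 3) (σ τ : Conf n) : Conf n :=
  fun x => if ty h c σ x = 0 then 2 * c - τ x else τ x

theorem Ph_Ph (h : 2 ∣ n) (c : ZMod 3) (σ τ : Conf n) : Ph h c σ (Ph h c σ τ) = τ := by
  funext x
  unfold Ph
  split_ifs
  · ring
  · rfl

theorem ph_aux (a b c : ZMod 3) (ha : a ≠ c) (h : b = a ∨ b = 2 * c - a) :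
    2 * c - b = a ↔ ¬ b = a := by
  revert a b c; decide

theorem ph_aux1 (a b c : ZMod 3) (h : b = a ∨ b = 2 * c - a) :
    2 * c - b = a ∨ 2 * c - b = 2 * c - a := by
  revert a b c; decide

theorem Ph_mem (h : 2 ∣ n) (hc : Compat σ τ c (elig σ c)) :
    Compat σ (Ph h c σ τ) c (elig σ c) := by
  refine ⟨fun x => ?_, fun e he => ?_⟩
  · unfold Ph
    split_ifs
    · exact ph_aux1 _ _ _ (hc.1 x)
    · exact hc.1 x
  · have h1 := mem_elig.1 he
    have h2 := (ty_aux (par h e.1) _ _ c h1.1 h1.2.1).2 h1.2.2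
    rw [← par_ev h e.1 e.2] at h2
    have h3 : ty h c σ e.1 = ty h c σ (e.1 + ev e.2) := h2
    unfold Ph
    by_cases h4 : ty h c σ e.1 = 0
    · rw [if_pos h4, if_pos (h3 ▸ h4), ph_aux _ _ _ h1.1 (hc.1 _), ph_aux _ _ _ h1.2.1 (hc.1 _),
        hc.2 e he]
    · rw [if_neg h4, if_neg (h3 ▸ h4)]
      exact hc.2 e he

theorem zmod2_ne {a b : ZMod 2} (h : a ≠ b) : (a = 0 ↔ ¬ b = 0) := by
  revert a b; decide

theorem ph_aux2 (a b b' c : ZMod 3) (ha : a ≠ c) (h : b = a ∨ b = 2 * c - a)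
    (h' : b' = a ∨ b' = 2 * c - a) : b = b' → ¬ 2 * c - b = b' := by
  revert a b b' c; decide

theorem ph_aux3 (a b b' c : ZMod 3) (ha : a ≠ c) (h : b = a ∨ b = 2 * c - a)
    (h' : b' = a ∨ b' = 2 * c - a) : b = b' → ¬ b = 2 * c - b' := by
  revert a b b' c; decide

/-- a monochromatic edge is repaired by the partial exchange -/
theorem Ph_repair (h : 2 ∣ n) {e : Edge n} (he : e ∈ mE σ) (hec : σ e.1 ≠ c)
    (hc : Compat σ τ c (elig σ c)) (hτ : e ∈ mE τ) : e ∉ mE (Ph h c σ τ) := by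
  rw [mem_mE] at he hτ ⊢
  have hec2 : σ (e.1 + ev e.2) ≠ c := he ▸ hec
  have h1 : ¬ ty h c σ e.1 = ty h c σ (e.1 + ev e.2) := by
    intro h2
    have h3 : par h e.1 + (if σ e.1 = c + 1 then 1 else 0) =
        (par h e.1 + 1) + (if σ (e.1 + ev e.2) = c + 1 then 1 else 0) := by
      rw [← par_ev h e.1 e.2]
      exact h2
    exact (ty_aux (par h e.1) _ _ c hec hec2).1 h3 he
  have h2 := zmod2_ne h1
  have g1 := hc.1 e.1
  have g2 := hc.1 (e.1 + ev e.2)
  rw [← he] at g2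
  unfold Ph
  by_cases h4 : ty h c σ e.1 = 0
  · rw [if_pos h4, if_neg (h2.1 h4)]
    exact ph_aux2 _ _ _ _ hec g1 g2 hτ
  · rw [if_neg h4, if_pos (by by_contra h5; exact h4 (h2.2 h5))]
    exact ph_aux3 _ _ _ _ hec g1 g2 hτ

theorem drop_half (h : 2 ∣ n) {e : Edge n} (he : e ∈ mE σ) (hec : σ e.1 ≠ c) :
    1 / 2 ≤ ∑ τ ∈ univ.filter (fun τ : Conf n => mono τ < mono σ), S1 c σ τ := by
  classical
  have e1 : ∑ τ ∈ univ.filter (fun τ : Conf n => mono τ < mono σ), S1 c σ τ =
      (((univ.filter (fun τ : Conf n => mono τ < mono σ)).filter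
        (fun τ => Compat σ τ c (elig σ c))).card : ℝ) / ((Nb c σ (elig σ c)).card : ℝ) := by
    have e2 : ∀ τ : Conf n, S1 c σ τ = if Compat σ τ c (elig σ c) then
        1 / ((Nb c σ (elig σ c)).card : ℝ) else 0 := by
      intro τ
      unfold S1
      congr
    simp only [e2]
    rw [← sum_filter, sum_const, nsmul_eq_mul]
    ring
  rw [e1]
  have hN : (0 : ℝ) < ((Nb c σ (elig σ c)).card : ℝ) := by exact_mod_cast Nb_pos c σ _
  rw [div_le_div_iff₀ (by norm_num) hN, one_mul]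
  -- split the class
  set B := (Nb c σ (elig σ c)).filter (fun τ => e ∈ mE τ) with hB
  set B' := (Nb c σ (elig σ c)).filter (fun τ => ¬ e ∈ mE τ) with hB'
  have h1 : B.card + B'.card = (Nb c σ (elig σ c)).card := card_filter_add_card_filter_not _
  have h2 : B.card ≤ B'.card := by
    refine card_le_card_of_injOn (Ph h c σ) (fun τ hτ => ?_) (fun τ _ τ' _ h3 => ?_)
    · rw [hB, mem_coe, mem_filter, mem_Nb] at hτ
      rw [hB', mem_coe, mem_filter, mem_Nb]
      exact ⟨Ph_mem h hτ.1, Ph_repair h he hec hτ.1 hτ.2⟩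
    · have := congrArg (Ph h c σ) h3
      rwa [Ph_Ph, Ph_Ph] at this
  have h3 : B' ⊆ (univ.filter (fun τ : Conf n => mono τ < mono σ)).filter
        (fun τ => Compat σ τ c (elig σ c)) := by
    intro τ hτ
    rw [hB', mem_filter, mem_Nb] at hτ
    rw [mem_filter, mem_filter]
    refine ⟨⟨mem_univ _, ?_⟩, hτ.1⟩
    rw [mono_eq, mono_eq]
    refine card_lt_card ?_
    rw [ssubset_iff_of_subset (mE_sub hτ.1)]
    exact ⟨e, he, hτ.2⟩
  have h4 := card_le_card h3
  have h5 : (Nb c σ (elig σ c)).card ≤ ((univ.filter (fun τ : Conf n => mono τ < mono σ)).filter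
        (fun τ => Compat σ τ c (elig σ c))).card * 2 := by omega
  exact_mod_cast h5

theorem z3_all (a : ZMod 3) : a = 0 ∨ a = 1 ∨ a = 2 := by
  revert a; decide

theorem drop_third (h : 2 ∣ n) (hσ : mono σ ≠ 0) :
    1 / 3 ≤ ∑ τ ∈ univ.filter (fun τ : Conf n => mono τ < mono σ), T1 σ τ := by
  classical
  have h0 : (mE σ).Nonempty := by
    rw [nonempty_iff_ne_empty]
    intro h1
    rw [mono_eq, h1, card_empty] at hσ
    exact hσ rfl
  obtain ⟨e, he⟩ := h0
  have e1 : ∑ τ ∈ univ.filter (fun τ : Conf n => mono τ < mono σ), T1 σ τ =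
      1 / 3 * ∑ c : ZMod 3, ∑ τ ∈ univ.filter (fun τ : Conf n => mono τ < mono σ),
        S1 c σ τ := by
    unfold T1
    rw [← mul_sum, sum_comm]
  rw [e1]
  have h1 : ∀ c : ZMod 3, (if σ e.1 ≠ c then (1 / 2 : ℝ) else 0) ≤
      ∑ τ ∈ univ.filter (fun τ : Conf n => mono τ < mono σ), S1 c σ τ := by
    intro c
    split_ifs with h2
    · exact drop_half h he h2
    · exact sum_nonneg fun τ _ => S1_nonneg c σ τ
  have h2 : (1 : ℝ) ≤ ∑ c : ZMod 3, (if σ e.1 ≠ c then (1 / 2 : ℝ) else 0) := by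
    have h3 : ∀ a : ZMod 3, ∑ c : ZMod 3, (if a ≠ c then (1 / 2 : ℝ) else 0) = 1 := by
      intro a
      have h4 : ∑ c : ZMod 3, (if a ≠ c then (1 / 2 : ℝ) else 0) =
          (if a ≠ 0 then (1 / 2 : ℝ) else 0) + (if a ≠ 1 then (1 / 2 : ℝ) else 0) +
          (if a ≠ 2 then (1 / 2 : ℝ) else 0) := Fin.sum_univ_three _
      rw [h4]
      have h5 := z3_all a
      rcases h5 with h5 | h5 | h5
      · rw [h5, if_neg (by decide), if_pos (by decide), if_pos (by decide)]
        norm_num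
      · rw [h5, if_neg (c := (1 : ZMod 3) ≠ 1) (by decide), if_pos (by decide),
          if_pos (by decide)]
        norm_num
      · rw [h5, if_neg (c := (2 : ZMod 3) ≠ 2) (by decide), if_pos (by decide),
          if_pos (by decide)]
        norm_num
    exact (h3 _).ge
  have h3 := sum_le_sum fun c (_ : c ∈ univ) => h1 c
  linarith

end Pool.Agent.WSK
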