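import Mathlib

/-!
Closed forms on the discrete torus.
-/

set_option autoImplicit false

namespace Pool.Agent.WSK

open Finset

variable {n : ℕ} [NeZero n] {R : Type*} [AddCommGroup R]

/-- induction on `ZMod n` -/
theorem zmod_ind {Q : ZMod n → Prop} (h0 : Q 0) (h1 : ∀ a, Q a → Q (a + 1)) (a : ZMod n) :
    Q a := by
  have h2 : ∀ k : ℕ, Q (k : ZMod n) := by
    intro k
    induction k with
    | zero => simpa using h0
    | succ k ih =>
      push_cast
      exact h1 _ ih
  have h3 := h2 a.val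
  rwa [ZMod.natCast_zmod_val] at h3

theorem sum_zmod (g : ZMod n → R) : ∑ a : ZMod n, g a = ∑ k ∈ range n, g (k : ZMod n) := by
  refine Finset.sum_nbij' (fun a => a.val) (fun k => (k : ZMod n)) ?_ ?_ ?_ ?_ ?_
  · intro a _
    exact mem_range.2 (ZMod.val_lt a)
  · intro k _
    exact mem_univ _
  · intro a _
    exact ZMod.natCast_zmod_val a
  · intro k hk
    exact ZMod.val_natCast_of_lt (mem_range.1 hk)
  · intro a _
    rw [ZMod.natCast_zmod_val]

/-- a cyclic primitive -/
theorem anti (g : ZMod n → R) (hg : ∑ a : ZMod n, g a = 0) :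
    ∃ G : ZMod n → R, G 0 = 0 ∧ ∀ a, G (a + 1) = G a + g a := by
  refine ⟨fun a => ∑ k ∈ range a.val, g (k : ZMod n), by simp, fun a => ?_⟩
  have h1 : a + 1 = ((a.val + 1 : ℕ) : ZMod n) := by
    push_cast
    rw [ZMod.natCast_zmod_val]
  have h2 : ∑ k ∈ range (a.val + 1), g (k : ZMod n) =
      ∑ k ∈ range a.val, g (k : ZMod n) + g a := by
    rw [sum_range_succ, ZMod.natCast_zmod_val]
  show ∑ k ∈ range (a + 1).val, g (k : ZMod n) = ∑ k ∈ range a.val, g (k : ZMod n) + g a
  rw [← h2]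
  have h3 := ZMod.val_lt a
  rcases eq_or_lt_of_le (Nat.succ_le_of_lt h3) with h4 | h4
  · have h4' : a.val + 1 = n := h4
    have h5 : (a + 1).val = 0 := by
      rw [h1, h4', ZMod.natCast_self, ZMod.val_zero]
    rw [h5, h4', ← sum_zmod, hg, range_zero, sum_empty]
  · have h5 : (a + 1).val = a.val + 1 := by
      rw [h1, ZMod.val_natCast_of_lt h4]
    rw [h5]

/-- closed forms -/
def Cl (a b : ZMod n × ZMod n → R) : Prop :=
  ∀ x y : ZMod n, a (x, y) + b (x + 1, y) = b (x, y) + a (x, y + 1)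

/-- the sum over a row -/
def pr (a : ZMod n × ZMod n → R) : R := ∑ k : ZMod n, a (k, 0)

/-- the sum over a column -/
def pc (b : ZMod n × ZMod n → R) : R := ∑ k : ZMod n, b (0, k)

theorem sum_shift (g : ZMod n → R) : ∑ k : ZMod n, g (k + 1) = ∑ k : ZMod n, g k :=
  Fintype.sum_equiv (Equiv.addRight (1 : ZMod n)) _ _ fun _ => rfl

theorem row_const {a b : ZMod n × ZMod n → R} (h : Cl a b) (y : ZMod n) :
    ∑ k : ZMod n, a (k, y) = pr a := by
  refine zmod_ind (Q := fun y => ∑ k : ZMod n, a (k, y) = pr a) rfl (fun y hy => ?_) y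
  have h1 : ∑ k : ZMod n, (a (k, y) + b (k + 1, y)) = ∑ k : ZMod n, (b (k, y) + a (k, y + 1)) :=
    sum_congr rfl fun k _ => h k y
  rw [sum_add_distrib, sum_add_distrib, sum_shift (fun k => b (k, y)), add_comm] at h1
  rw [← add_left_cancel h1, hy]

theorem col_const {a b : ZMod n × ZMod n → R} (h : Cl a b) (x : ZMod n) :
    ∑ k : ZMod n, b (x, k) = pc b := by
  refine zmod_ind (Q := fun x => ∑ k : ZMod n, b (x, k) = pc b) rfl (fun x hx => ?_) x
  have h1 : ∑ k : ZMod n, (a (x, k) + b (x + 1, k)) = ∑ k : ZMod n, (b (x, k) + a (x, k + 1)) :=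
    sum_congr rfl fun k _ => h x k
  rw [sum_add_distrib, sum_add_distrib, sum_shift (fun k => a (x, k)),
    add_comm (∑ k : ZMod n, b (x, k))] at h1
  rw [add_left_cancel h1, hx]

/-- closed forms with vanishing periods are exact -/
theorem exact_of {a b : ZMod n × ZMod n → R} (h : Cl a b) (h0 : pr a = 0) (h1 : pc b = 0) :
    ∃ H : ZMod n × ZMod n → R, (∀ x y, H (x + 1, y) = H (x, y) + a (x, y)) ∧
      ∀ x y, H (x, y + 1) = H (x, y) + b (x, y) := by
  obtain ⟨G, hG0, hG⟩ := anti (fun k => a (k, 0)) h0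
  have hV : ∀ x : ZMod n, ∃ V : ZMod n → R, V 0 = 0 ∧ ∀ y, V (y + 1) = V y + b (x, y) :=
    fun x => anti (fun k => b (x, k)) (by rw [col_const h, h1])
  choose V hV0 hV1 using hV
  refine ⟨fun z => G z.1 + V z.1 z.2, fun x y => ?_, fun x y => ?_⟩
  · show G (x + 1) + V (x + 1) y = G x + V x y + a (x, y)
    refine zmod_ind (Q := fun y => G (x + 1) + V (x + 1) y = G x + V x y + a (x, y)) ?_
      (fun y hy => ?_) y
    · rw [hV0, hV0, hG]
      abel
    · have h2 := h x y
      rw [hV1, hV1]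
      have e1 : G (x + 1) + (V (x + 1) y + b (x + 1, y)) =
          (G (x + 1) + V (x + 1) y) + b (x + 1, y) := by abel
      rw [e1, hy]
      have e2 : G x + V x y + a (x, y) + b (x + 1, y) =
          G x + V x y + (a (x, y) + b (x + 1, y)) := by abel
      rw [e2, h2]
      abel
  · show G x + V x (y + 1) = G x + V x y + b (x, y)
    rw [hV1]
    abel

theorem sum_prod' (g : ZMod n × ZMod n → ℤ) :
    ∑ z, g z = ∑ x : ZMod n, ∑ y : ZMod n, g (x, y) := Fintype.sum_prod_type g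

/-- the cup product of two closed forms -/
theorem cup {a b a' b' : ZMod n × ZMod n → ℤ} (h : Cl a b) (h' : Cl a' b') :
    ∑ x : ZMod n, ∑ y : ZMod n, (a (x, y) * b' (x + 1, y) - b (x, y) * a' (x, y + 1)) =
      pr a * pc b' - pc b * pr a' := by
  have hn : (n : ℤ) ≠ 0 := by exact_mod_cast NeZero.ne n
  -- an exact form
  have hcl : Cl (fun z => (n : ℤ) * a z - pr a) (fun z => (n : ℤ) * b z - pc b) := by
    intro x y
    have := h x y
    show (n : ℤ) * a (x, y) - pr a + ((n : ℤ) * b (x + 1, y) - pc b) =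
      (n : ℤ) * b (x, y) - pc b + ((n : ℤ) * a (x, y + 1) - pr a)
    linear_combination (n : ℤ) * this
  obtain ⟨H, hH1, hH2⟩ := exact_of hcl (by
    unfold pr
    rw [sum_sub_distrib, ← mul_sum, sum_const, card_univ, ZMod.card, nsmul_eq_mul, sub_self]) (by
    unfold pc
    rw [sum_sub_distrib, ← mul_sum, sum_const, card_univ, ZMod.card, nsmul_eq_mul, sub_self])
  -- the exact form gives zero
  have e0 : ∑ x : ZMod n, ∑ y : ZMod n, ((H (x + 1, y) - H (x, y)) * b' (x + 1, y) -
      (H (x, y + 1) - H (x, y)) * a' (x, y + 1)) = 0 := by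
    have e1 : ∀ x y : ZMod n, (H (x + 1, y) - H (x, y)) * b' (x + 1, y) -
        (H (x, y + 1) - H (x, y)) * a' (x, y + 1) =
        (H (x + 1, y) * b' (x + 1, y) - H (x, y) * b' (x, y)) -
        (H (x, y + 1) * a' (x, y + 1) - H (x, y) * a' (x, y)) := by
      intro x y
      have := h' x y
      linear_combination (-H (x, y)) * this
    simp only [e1, sum_sub_distrib]
    have e2 : ∑ x : ZMod n, ∑ y : ZMod n, H (x + 1, y) * b' (x + 1, y) =
        ∑ x : ZMod n, ∑ y : ZMod n, H (x, y) * b' (x, y) :=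
      sum_shift (fun x => ∑ y : ZMod n, H (x, y) * b' (x, y))
    have e3 : ∀ x : ZMod n, ∑ y : ZMod n, H (x, y + 1) * a' (x, y + 1) =
        ∑ y : ZMod n, H (x, y) * a' (x, y) := fun x =>
      sum_shift (fun y => H (x, y) * a' (x, y))
    simp only [e2, e3]
    ring
  have e4 : ∑ x : ZMod n, ∑ y : ZMod n, b' (x + 1, y) = n * pc b' := by
    rw [sum_shift (fun x => ∑ y : ZMod n, b' (x, y))]
    simp only [col_const h']
    rw [sum_const, card_univ, ZMod.card, nsmul_eq_mul]
  have e5 : ∑ x : ZMod n, ∑ y : ZMod n, a' (x, y + 1) = n * pr a' := by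
    rw [sum_comm, sum_shift (fun y => ∑ x : ZMod n, a' (x, y))]
    simp only [row_const h']
    rw [sum_const, card_univ, ZMod.card, nsmul_eq_mul]
  apply mul_left_cancel₀ hn
  have e6 : (n : ℤ) * ∑ x : ZMod n, ∑ y : ZMod n,
      (a (x, y) * b' (x + 1, y) - b (x, y) * a' (x, y + 1)) =
      ∑ x : ZMod n, ∑ y : ZMod n, ((H (x + 1, y) - H (x, y)) * b' (x + 1, y) -
      (H (x, y + 1) - H (x, y)) * a' (x, y + 1)) +
      (pr a * ∑ x : ZMod n, ∑ y : ZMod n, b' (x + 1, y) -
        pc b * ∑ x : ZMod n, ∑ y : ZMod n, a' (x, y + 1)) := by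
    simp only [mul_sum, ← sum_sub_distrib, ← sum_add_distrib]
    refine sum_congr rfl fun x _ => sum_congr rfl fun y _ => ?_
    rw [hH1, hH2]
    ring
  rw [e6, e0, e4, e5]
  ring

end Pool.Agent.WSK
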