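import Pool.Agent.Lib.MP_0209a0_pr.Eng

/-!
From zero temperature to low temperature.
-/

set_option autoImplicit false
set_option linter.unusedSectionVars false

namespace Pool.Agent.WSK

open Finset

variable {n : ℕ} [NeZero n] {σ τ ζ : Conf n} {c : ZMod 3} {t p : ℝ}

theorem geo_le {x : ℝ} (h0 : 0 ≤ x) (h1 : x ≤ 1 / 25) (K : ℕ) :
    ∑ k ∈ range K, x ^ (k + 1) ≤ 1 / 24 := by
  have h2 : ∀ K : ℕ, ∑ k ∈ range K, x ^ (k + 1) ≤ 1 / 24 * (1 - (1 / 25) ^ K) := by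
    intro K
    induction K with
    | zero => simp
    | succ K ih =>
      rw [sum_range_succ]
      have h3 : x ^ (K + 1) ≤ (1 / 25 : ℝ) ^ (K + 1) := pow_le_pow_left₀ h0 h1 _
      have h4 : 1 / 24 * (1 - (1 / 25 : ℝ) ^ (K + 1)) =
          1 / 24 * (1 - (1 / 25 : ℝ) ^ K) + (1 / 25 : ℝ) ^ (K + 1) := by
        rw [pow_succ]
        ring
      rw [h4]
      linarith
  have h3 := h2 K
  have h4 : (0 : ℝ) ≤ (1 / 25) ^ K := by positivity
  linarith

theorem mono_le (σ : Conf n) : mono σ ≤ 2 * n ^ 2 := by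
  rw [mono_eq, ← card_edge]
  exact card_le_univ _

theorem into_one (c : ZMod 3) (τ : Conf n) (ht : 0 ≤ t) (hx : t * ((2 * n ^ 2 : ℕ) : ℝ) ≤ 1 / 25) :
    ∑ σ ∈ univ.filter (fun σ : Conf n => mono τ < mono σ), t ^ mono σ * S1 c σ τ ≤
      1 / 24 * t ^ mono τ := by
  classical
  have hmaps : ∀ σ ∈ univ.filter (fun σ : Conf n => mono τ < mono σ),
      mono σ - mono τ - 1 ∈ range (2 * n ^ 2) := by
    intro σ hσ
    rw [mem_filter] at hσ
    rw [mem_range]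
    have := mono_le σ
    have := hσ.2
    omega
  rw [← sum_fiberwise_of_maps_to hmaps]
  have h1 : ∀ k ∈ range (2 * n ^ 2), ∑ σ ∈ (univ.filter (fun σ : Conf n => mono τ < mono σ)).filter
      (fun σ => mono σ - mono τ - 1 = k), t ^ mono σ * S1 c σ τ ≤
      t ^ mono τ * (t * ((2 * n ^ 2 : ℕ) : ℝ)) ^ (k + 1) := by
    intro k _
    have h2 : (univ.filter (fun σ : Conf n => mono τ < mono σ)).filter
        (fun σ => mono σ - mono τ - 1 = k) =
        univ.filter (fun σ : Conf n => mono σ = mono τ + (k + 1)) := by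
      ext σ
      simp only [mem_filter, mem_univ, true_and]
      omega
    rw [h2]
    have h3 : ∑ σ ∈ univ.filter (fun σ : Conf n => mono σ = mono τ + (k + 1)),
        t ^ mono σ * S1 c σ τ = t ^ (mono τ + (k + 1)) *
        ∑ σ ∈ univ.filter (fun σ : Conf n => mono σ = mono τ + (k + 1)), S1 c σ τ := by
      rw [mul_sum]
      refine sum_congr rfl fun σ hσ => ?_
      rw [(mem_filter.1 hσ).2]
    rw [h3, mul_pow, pow_add, mul_assoc]
    refine mul_le_mul_of_nonneg_left ?_ (by positivity)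
    exact mul_le_mul_of_nonneg_left (into_le c τ (k + 1)) (by positivity)
  refine (sum_le_sum h1).trans ?_
  rw [← mul_sum, mul_comm]
  exact mul_le_mul_of_nonneg_right (geo_le (by positivity) hx _) (by positivity)

theorem into_all (τ : Conf n) (ht : 0 ≤ t) (hx : t * ((2 * n ^ 2 : ℕ) : ℝ) ≤ 1 / 25) :
    ∑ σ ∈ univ.filter (fun σ : Conf n => mono τ < mono σ), t ^ mono σ * T1 σ τ ≤
      1 / 24 * t ^ mono τ := by
  have e : ∑ σ ∈ univ.filter (fun σ : Conf n => mono τ < mono σ), t ^ mono σ * T1 σ τ =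
      1 / 3 * ∑ c : ZMod 3, ∑ σ ∈ univ.filter (fun σ : Conf n => mono τ < mono σ),
        t ^ mono σ * S1 c σ τ := by
    rw [sum_comm, mul_sum]
    refine sum_congr rfl fun σ _ => ?_
    unfold T1
    rw [← mul_sum]
    ring
  rw [e]
  have h1 : ∑ c : ZMod 3, ∑ σ ∈ univ.filter (fun σ : Conf n => mono τ < mono σ),
        t ^ mono σ * S1 c σ τ ≤ ∑ c : ZMod 3, 1 / 24 * t ^ mono τ :=
    sum_le_sum fun c _ => into_one c τ ht hx
  rw [sum_const, card_univ, ZMod.card, nsmul_eq_mul] at h1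
  push_cast at h1
  linarith

/-- the sum of the squares is bounded by the value on the proper colourings and the Dirichlet
form -/
theorem energy (h2 : 2 ∣ n) (ht : 0 ≤ t) (hx : t * ((2 * n ^ 2 : ℕ) : ℝ) ≤ 1 / 25)
    (g : Conf n → ℝ) :
    ∑ σ, t ^ mono σ * g σ ^ 2 ≤ 4 / 3 * ∑ σ ∈ Om n, g σ ^ 2 +
      8 * ∑ σ, t ^ mono σ * ∑ τ, T1 σ τ * (g σ - g τ) ^ 2 := by
  classical
  set A := ∑ σ, t ^ mono σ * g σ ^ 2 with hA
  set D := ∑ σ, t ^ mono σ * ∑ τ, T1 σ τ * (g σ - g τ) ^ 2 with hD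
  -- split
  have h1 : A = ∑ σ ∈ Om n, g σ ^ 2 + ∑ σ ∈ univ.filter (fun σ : Conf n => mono σ ≠ 0),
      t ^ mono σ * g σ ^ 2 := by
    rw [hA, ← sum_filter_add_sum_filter_not univ (fun σ : Conf n => mono σ = 0)]
    congr 1
    have e : Om n = univ.filter (fun σ : Conf n => mono σ = 0) := by
      ext σ
      rw [mem_Om, Pr_iff]
      simp
    rw [e]
    refine sum_congr rfl fun σ hσ => ?_
    rw [(mem_filter.1 hσ).2, pow_zero, one_mul]
  -- the improper configurations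
  have h3 : ∀ σ ∈ univ.filter (fun σ : Conf n => mono σ ≠ 0), t ^ mono σ * g σ ^ 2 ≤
      6 * (t ^ mono σ * ∑ τ, T1 σ τ * (g σ - g τ) ^ 2) +
      6 * ∑ τ ∈ univ.filter (fun τ : Conf n => mono τ < mono σ),
        t ^ mono σ * T1 σ τ * g τ ^ 2 := by
    intro σ hσ
    have hσ' := (mem_filter.1 hσ).2
    have h4 := drop_third h2 hσ'
    have h5 : 1 / 3 * g σ ^ 2 ≤ ∑ τ ∈ univ.filter (fun τ : Conf n => mono τ < mono σ),
        T1 σ τ * (2 * (g σ - g τ) ^ 2 + 2 * g τ ^ 2) := by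
      calc 1 / 3 * g σ ^ 2 ≤ (∑ τ ∈ univ.filter (fun τ : Conf n => mono τ < mono σ), T1 σ τ) *
            g σ ^ 2 := mul_le_mul_of_nonneg_right h4 (sq_nonneg _)
        _ = ∑ τ ∈ univ.filter (fun τ : Conf n => mono τ < mono σ), T1 σ τ * g σ ^ 2 := by
            rw [sum_mul]
        _ ≤ _ := by
            refine sum_le_sum fun τ _ => mul_le_mul_of_nonneg_left ?_ (T1_nonneg σ τ)
            nlinarith [sq_nonneg ((g σ - g τ) - g τ)]
    have h6 : ∑ τ ∈ univ.filter (fun τ : Conf n => mono τ < mono σ),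
        T1 σ τ * (2 * (g σ - g τ) ^ 2 + 2 * g τ ^ 2) =
        2 * ∑ τ ∈ univ.filter (fun τ : Conf n => mono τ < mono σ), T1 σ τ * (g σ - g τ) ^ 2 +
        2 * ∑ τ ∈ univ.filter (fun τ : Conf n => mono τ < mono σ), T1 σ τ * g τ ^ 2 := by
      rw [mul_sum, mul_sum, ← sum_add_distrib]
      refine sum_congr rfl fun τ _ => ?_
      ring
    have h7 : ∑ τ ∈ univ.filter (fun τ : Conf n => mono τ < mono σ), T1 σ τ * (g σ - g τ) ^ 2 ≤
        ∑ τ, T1 σ τ * (g σ - g τ) ^ 2 :=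
      sum_le_sum_of_subset_of_nonneg (filter_subset _ _) fun τ _ _ =>
        mul_nonneg (T1_nonneg σ τ) (sq_nonneg _)
    have h8 : g σ ^ 2 ≤ 6 * ∑ τ, T1 σ τ * (g σ - g τ) ^ 2 +
        6 * ∑ τ ∈ univ.filter (fun τ : Conf n => mono τ < mono σ), T1 σ τ * g τ ^ 2 := by
      rw [h6] at h5
      linarith
    have h9 := mul_le_mul_of_nonneg_left h8 (pow_nonneg ht (mono σ))
    refine h9.trans (le_of_eq ?_)
    rw [mul_add]
    congr 1
    · ring
    · rw [mul_left_comm, mul_sum]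
      congr 1
      refine sum_congr rfl fun τ _ => ?_
      ring
  have h4 : ∑ σ ∈ univ.filter (fun σ : Conf n => mono σ ≠ 0),
      6 * (t ^ mono σ * ∑ τ, T1 σ τ * (g σ - g τ) ^ 2) ≤ 6 * D := by
    rw [← mul_sum]
    refine mul_le_mul_of_nonneg_left ?_ (by norm_num)
    exact sum_le_sum_of_subset_of_nonneg (filter_subset _ _) fun σ _ _ =>
      mul_nonneg (pow_nonneg ht _) (sum_nonneg fun τ _ =>
        mul_nonneg (T1_nonneg σ τ) (sq_nonneg _))
  have h5 : ∑ σ ∈ univ.filter (fun σ : Conf n => mono σ ≠ 0),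
      6 * ∑ τ ∈ univ.filter (fun τ : Conf n => mono τ < mono σ),
        t ^ mono σ * T1 σ τ * g τ ^ 2 ≤ 1 / 4 * A := by
    rw [← mul_sum]
    have h6 : ∑ σ ∈ univ.filter (fun σ : Conf n => mono σ ≠ 0),
        ∑ τ ∈ univ.filter (fun τ : Conf n => mono τ < mono σ), t ^ mono σ * T1 σ τ * g τ ^ 2 ≤
        ∑ σ : Conf n, ∑ τ ∈ univ.filter (fun τ : Conf n => mono τ < mono σ),
          t ^ mono σ * T1 σ τ * g τ ^ 2 :=
      sum_le_sum_of_subset_of_nonneg (filter_subset _ _) fun σ _ _ =>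
        sum_nonneg fun τ _ => mul_nonneg (mul_nonneg (pow_nonneg ht _) (T1_nonneg σ τ))
          (sq_nonneg _)
    have h7 : ∑ σ : Conf n, ∑ τ ∈ univ.filter (fun τ : Conf n => mono τ < mono σ),
          t ^ mono σ * T1 σ τ * g τ ^ 2 =
        ∑ τ : Conf n, (∑ σ ∈ univ.filter (fun σ : Conf n => mono τ < mono σ),
          t ^ mono σ * T1 σ τ) * g τ ^ 2 := by
      simp only [sum_filter]
      rw [sum_comm]
      refine sum_congr rfl fun τ _ => ?_
      rw [sum_mul]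
      refine sum_congr rfl fun σ _ => ?_
      split_ifs
      · rfl
      · rw [zero_mul]
    have h8 : ∑ τ : Conf n, (∑ σ ∈ univ.filter (fun σ : Conf n => mono τ < mono σ),
          t ^ mono σ * T1 σ τ) * g τ ^ 2 ≤ 1 / 24 * A := by
      rw [hA, mul_sum]
      refine sum_le_sum fun τ _ => ?_
      rw [← mul_assoc]
      exact mul_le_mul_of_nonneg_right (into_all τ ht hx) (sq_nonneg _)
    linarith
  have h6 := sum_le_sum h3
  rw [sum_add_distrib] at h6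
  linarith

/-- the lower bound of the transitions -/
theorem T1_le_step (hp : p ≤ 1) (hx : (1 - p) * ((2 * n ^ 2 : ℕ) : ℝ) ≤ 1 / 25) (hp0 : 0 ≤ p)
    (σ τ : Conf n) : T1 σ τ ≤ 25 / 24 * step p σ τ := by
  have h1 := step_ge hp0 hp σ τ
  have h2 := one_add_mul_le_pow (show (-2 : ℝ) ≤ -(1 - p) by linarith) (2 * n ^ 2)
  have h3 : 1 + -(1 - p) = p := by ring
  rw [h3] at h2
  have h4 : (24 / 25 : ℝ) ≤ p ^ (2 * n ^ 2) := by
    refine le_trans ?_ h2
    have : ((2 * n ^ 2 : ℕ) : ℝ) * -(1 - p) = -((1 - p) * ((2 * n ^ 2 : ℕ) : ℝ)) := by ring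
    rw [this]
    linarith
  have h5 := mul_le_mul_of_nonneg_right h4 (T1_nonneg σ τ)
  linarith

theorem var_le (π : Conf n → ℝ) (g : Conf n → ℝ) :
    ∑ σ, ∑ τ, π σ * π τ * (g σ - g τ) ^ 2 ≤ 2 * (∑ σ, π σ) * ∑ σ, π σ * g σ ^ 2 := by
  have e : ∑ σ, ∑ τ, π σ * π τ * (g σ - g τ) ^ 2 =
      2 * (∑ σ, π σ) * ∑ σ, π σ * g σ ^ 2 - 2 * (∑ σ, π σ * g σ) ^ 2 := by
    have e1 : ∀ σ τ, π σ * π τ * (g σ - g τ) ^ 2 =
        (π σ * g σ ^ 2) * π τ + π σ * (π τ * g τ ^ 2) - 2 * ((π σ * g σ) * (π τ * g τ)) := by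
      intro σ τ
      ring
    simp only [e1, sum_sub_distrib, sum_add_distrib, ← mul_sum, ← sum_mul]
    ring
  rw [e]
  have := sq_nonneg (∑ σ, π σ * g σ)
  linarith

/-- The relaxation time at low temperature. -/
theorem relax_low (hn : 4 ≤ n) (he : Even n) (hp : p ≤ 1)
    (hpn : 1 - p ≤ 1 / (50 * (n : ℝ) ^ 2)) : Relax n p (310 * (n : ℝ) ^ 9) := by
  classical
  intro f
  obtain ⟨m, hm⟩ := all_le' hn he f
  have hn4 : (4 : ℝ) ≤ n := by exact_mod_cast hn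
  have hn2 : (0 : ℝ) < (n : ℝ) ^ 2 := by positivity
  have ht : 0 ≤ 1 - p := by linarith
  have hx : (1 - p) * ((2 * n ^ 2 : ℕ) : ℝ) ≤ 1 / 25 := by
    push_cast
    have h1 := mul_le_mul_of_nonneg_right hpn (show (0 : ℝ) ≤ 2 * (n : ℝ) ^ 2 by positivity)
    refine h1.trans (le_of_eq ?_)
    field_simp
    norm_num
  have hp0 : 0 ≤ p := by
    have h1 : 1 / (50 * (n : ℝ) ^ 2) ≤ 1 := by
      rw [div_le_one (by positivity)]
      nlinarith
    linarith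
  set w : Conf n → ℝ := fun σ => (1 - p) ^ mono σ with hw
  have hw0 : ∀ σ, 0 ≤ w σ := fun σ => pow_nonneg ht _
  set Z : ℝ := ∑ σ, w σ with hZ
  have hZ0 : 0 ≤ Z := sum_nonneg fun σ _ => hw0 σ
  have hpotts : ∀ σ, potts p σ = w σ / Z := fun σ => rfl
  have hstep0 : ∀ σ τ : Conf n, 0 ≤ step p σ τ := fun σ τ =>
    (mul_nonneg (pow_nonneg hp0 _) (T1_nonneg σ τ)).trans (step_ge hp0 hp σ τ)
  -- the Dirichlet forms
  set D1 := ∑ σ, w σ * ∑ τ, T1 σ τ * (f σ - f τ) ^ 2 with hD1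
  set D := ∑ σ, ∑ τ, w σ * step p σ τ * (f σ - f τ) ^ 2 with hD
  have hD1nn : 0 ≤ D1 := sum_nonneg fun σ _ => mul_nonneg (hw0 σ)
    (sum_nonneg fun τ _ => mul_nonneg (T1_nonneg σ τ) (sq_nonneg _))
  have hDD : D1 ≤ 25 / 24 * D := by
    rw [hD1, hD, mul_sum]
    refine sum_le_sum fun σ _ => ?_
    rw [mul_sum, mul_sum]
    refine sum_le_sum fun τ _ => ?_
    have h1 := mul_le_mul_of_nonneg_right (T1_le_step hp hx hp0 σ τ) (sq_nonneg (f σ - f τ))
    have h2 := mul_le_mul_of_nonneg_left h1 (hw0 σ)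
    refine h2.trans (le_of_eq ?_)
    ring
  have hDf : Df f ≤ 3 * D1 := by
    rw [Df_eq]
    refine mul_le_mul_of_nonneg_left ?_ (by norm_num)
    have h1 : ∑ σ ∈ Om n, ∑ τ, T1 σ τ * (f σ - f τ) ^ 2 =
        ∑ σ ∈ Om n, w σ * ∑ τ, T1 σ τ * (f σ - f τ) ^ 2 := by
      refine sum_congr rfl fun σ hσ => ?_
      have h2 : w σ = 1 := by
        show (1 - p) ^ mono σ = 1
        rw [Pr_iff.1 (mem_Om.1 hσ), pow_zero]
      rw [h2, one_mul]
    rw [h1]
    exact sum_le_sum_of_subset_of_nonneg (subset_univ _) fun σ _ _ => mul_nonneg (hw0 σ)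
      (sum_nonneg fun τ _ => mul_nonneg (T1_nonneg σ τ) (sq_nonneg _))
  have hen := energy he.two_dvd ht hx (fun σ => f σ - m)
  have e1 : ∀ σ τ : Conf n, (f σ - m - (f τ - m)) ^ 2 = (f σ - f τ) ^ 2 := fun σ τ => by ring
  simp only [e1] at hen
  have hA : ∑ σ, w σ * (f σ - m) ^ 2 ≤ 4 / 3 * (37 * (n : ℝ) ^ 9 * (3 * D1)) + 8 * D1 := by
    have h1 : 37 * (n : ℝ) ^ 9 * Df f ≤ 37 * (n : ℝ) ^ 9 * (3 * D1) :=
      mul_le_mul_of_nonneg_left hDf (by positivity)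
    have h2 : ∑ σ, w σ * (f σ - m) ^ 2 ≤ 4 / 3 * ∑ σ ∈ Om n, (f σ - m) ^ 2 + 8 * D1 := hen
    linarith
  have hn9 : (4 : ℝ) ^ 9 ≤ (n : ℝ) ^ 9 := pow_le_pow_left₀ (by norm_num) hn4 9
  have hA2 : 2 * ∑ σ, w σ * (f σ - m) ^ 2 ≤ 310 * (n : ℝ) ^ 9 * D := by
    have h1 : 2 * (4 / 3 * (37 * (n : ℝ) ^ 9 * (3 * D1)) + 8 * D1) =
        (296 * (n : ℝ) ^ 9 + 16) * D1 := by ring
    have h2 : (296 * (n : ℝ) ^ 9 + 16) * D1 ≤ (296 * (n : ℝ) ^ 9 + 16) * (25 / 24 * D) :=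
      mul_le_mul_of_nonneg_left hDD (by positivity)
    have hDnn : 0 ≤ D := by linarith
    have h3 : (296 * (n : ℝ) ^ 9 + 16) * (25 / 24 * D) ≤ 310 * (n : ℝ) ^ 9 * D := by
      have h4 : (296 * (n : ℝ) ^ 9 + 16) * (25 / 24) ≤ 310 * (n : ℝ) ^ 9 := by
        norm_num at hn9 ⊢
        linarith
      have h5 := mul_le_mul_of_nonneg_right h4 hDnn
      refine le_trans (le_of_eq ?_) h5
      ring
    linarith
  -- the normalisation
  have hL : ∑ σ, ∑ τ, potts p σ * potts p τ * (f σ - f τ) ^ 2 ≤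
      2 * (∑ σ : Conf n, potts p σ) * ∑ σ, potts p σ * (f σ - m) ^ 2 := by
    have h1 := var_le (potts p) (fun σ => f σ - m)
    simp only [e1] at h1
    exact h1
  have hZ1 : ∑ σ : Conf n, potts p σ ≤ 1 := by
    simp only [hpotts]
    rw [← sum_div]
    exact div_self_le_one Z
  have hR : ∑ σ, ∑ τ, potts p σ * step p σ τ * (f σ - f τ) ^ 2 = D / Z := by
    rw [hD, sum_div]
    refine sum_congr rfl fun σ _ => ?_
    rw [sum_div]
    refine sum_congr rfl fun τ _ => ?_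
    rw [hpotts]
    ring
  have hS : ∑ σ, potts p σ * (f σ - m) ^ 2 = (∑ σ, w σ * (f σ - m) ^ 2) / Z := by
    rw [sum_div]
    refine sum_congr rfl fun σ _ => ?_
    rw [hpotts]
    ring
  rw [hR]
  refine hL.trans ?_
  rw [hS]
  have hAn : 0 ≤ (∑ σ, w σ * (f σ - m) ^ 2) / Z :=
    div_nonneg (sum_nonneg fun σ _ => mul_nonneg (hw0 σ) (sq_nonneg _)) hZ0
  have h1 : 2 * (∑ σ : Conf n, potts p σ) * ((∑ σ, w σ * (f σ - m) ^ 2) / Z) ≤
      2 * 1 * ((∑ σ, w σ * (f σ - m) ^ 2) / Z) :=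
    mul_le_mul_of_nonneg_right (by linarith) hAn
  refine h1.trans ?_
  have h2 : 2 * 1 * ((∑ σ, w σ * (f σ - m) ^ 2) / Z) = (2 * ∑ σ, w σ * (f σ - m) ^ 2) / Z := by
    ring
  rw [h2, ← mul_div_assoc]
  exact div_le_div_of_nonneg_right hA2 hZ0

end Pool.Agent.WSK
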