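import Pool.Agent.Lib.MP_0209a0_pr.Mg.G003

/-!
The correlation at one site, and the comparison of the three colours with the full average on a
set of conditionally independent sites.
-/

set_option autoImplicit false
set_option linter.unusedSectionVars false

namespace Pool.Agent.WSK.Ht

open Finset

variable {S : Type} [Fintype S] [DecidableEq S] {W : (S → ZMod 3) → ℝ}

theorem sum_third (x : S) (h : (S → ZMod 3) → ℝ) :
    ∑ σ, ∑ d, h (Function.update σ x d) = 3 * ∑ σ, h σ := by
  rw [sum_swap x fun _ τ => h τ, mul_sum]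
  refine sum_congr rfl fun σ _ => ?_
  rw [sum_const, card_univ, ZMod.card, nsmul_eq_mul]
  norm_num

theorem univ_abc : ∀ a b : ZMod 3, a ≠ b →
    (univ : Finset (ZMod 3)) = {a, b, -(a + b)} ∧ a ≠ -(a + b) ∧ b ≠ -(a + b) := by
  decide

theorem sum_abc {a b : ZMod 3} (hab : a ≠ b) (h : ZMod 3 → ℝ) :
    ∑ d, h d = h a + h b + h (-(a + b)) := by
  obtain ⟨h1, h2, h3⟩ := univ_abc a b hab
  rw [h1, sum_insert, sum_insert, sum_singleton]
  · ring
  · rw [mem_singleton]
    exact h3
  · rw [mem_insert, mem_singleton]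
    rintro (h4 | h4)
    · exact hab h4
    · exact h2 h4

theorem rc_self (c : ZMod 3) : Rc c c = {c} := if_pos rfl

theorem rc_ne : ∀ a b : ZMod 3, a ≠ b → Rc b a = {a, -(a + b)} := by
  decide

theorem rc_ne' : ∀ a b : ZMod 3, a ≠ b → Rc b (-(a + b)) = {a, -(a + b)} := by
  decide

theorem Av_self (hW : ∀ σ, 0 < W σ) (c : ZMod 3) (x : S) (f : (S → ZMod 3) → ℝ)
    (σ : S → ZMod 3) :
    Av W (Rc c) x f (Function.update σ x c) = f (Function.update σ x c) := by
  rw [Av_apply, Function.update_self, rc_self, sum_singleton, sum_singleton,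
    Function.update_idem, mul_div_cancel_left₀ _ (hW _).ne']

theorem Av_pair {a b d : ZMod 3} (hab : a ≠ b) (hd : Rc b d = {a, -(a + b)}) (x : S)
    (f : (S → ZMod 3) → ℝ) (σ : S → ZMod 3) :
    Av W (Rc b) x f (Function.update σ x d) =
      (W (Function.update σ x a) * f (Function.update σ x a) +
        W (Function.update σ x (-(a + b))) * f (Function.update σ x (-(a + b)))) /
      (W (Function.update σ x a) + W (Function.update σ x (-(a + b)))) := by
  obtain ⟨h1, h2, h3⟩ := univ_abc a b hab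
  rw [Av_apply, Function.update_self, hd, sum_pair h2, sum_pair h2]
  simp only [Function.update_idem]

theorem Av_all {a b : ZMod 3} (hab : a ≠ b) (d : ZMod 3) (x : S)
    (f : (S → ZMod 3) → ℝ) (σ : S → ZMod 3) :
    Av W Rf x f (Function.update σ x d) =
      (W (Function.update σ x a) * f (Function.update σ x a) +
        W (Function.update σ x b) * f (Function.update σ x b) +
        W (Function.update σ x (-(a + b))) * f (Function.update σ x (-(a + b)))) /
      (W (Function.update σ x a) + W (Function.update σ x b) +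
        W (Function.update σ x (-(a + b)))) := by
  rw [Av_apply]
  simp only [Rf, Function.update_idem]
  rw [sum_abc hab, sum_abc hab]

/-- the hypothesis on the weights at one site -/
def Cor (W : (S → ZMod 3) → ℝ) (ρ2 : ℝ) (x : S) : Prop :=
  ∀ (σ : S → ZMod 3) (a b : ZMod 3), a ≠ b →
    W (Function.update σ x a) * W (Function.update σ x b) ≤
      ρ2 * ((W (Function.update σ x a) + W (Function.update σ x (-(a + b)))) *
        (W (Function.update σ x b) + W (Function.update σ x (-(a + b)))))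

theorem corr (hW : ∀ σ, 0 < W σ) {ρ2 : ℝ} {x : S} (hc : Cor W ρ2 x) {a b : ZMod 3}
    (hab : a ≠ b) (g : (S → ZMod 3) → ℝ) :
    Bf W (Av W (Rc a) x (Av W (Rc b) x g) - Av W Rf x g)
      (Av W (Rc a) x (Av W (Rc b) x g) - Av W Rf x g) ≤
      ρ2 * Bf W (g - Av W Rf x g) (g - Av W Rf x g) := by
  have hba : -(b + a) = -(a + b) := by rw [add_comm]
  have e1 : ∀ u : (S → ZMod 3) → ℝ, 3 * Bf W u u = ∑ σ, (
      W (Function.update σ x a) * u (Function.update σ x a) ^ 2 +
      W (Function.update σ x b) * u (Function.update σ x b) ^ 2 +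
      W (Function.update σ x (-(a + b))) * u (Function.update σ x (-(a + b))) ^ 2) := by
    intro u
    rw [Bf_apply, ← sum_third x fun σ => W σ * (u σ * u σ)]
    refine sum_congr rfl fun σ _ => ?_
    rw [sum_abc hab]
    ring
  suffices h : 3 * Bf W (Av W (Rc a) x (Av W (Rc b) x g) - Av W Rf x g)
      (Av W (Rc a) x (Av W (Rc b) x g) - Av W Rf x g) ≤
      ρ2 * (3 * Bf W (g - Av W Rf x g) (g - Av W Rf x g)) by linarith
  rw [e1, e1, mul_sum]
  refine sum_le_sum fun σ _ => ?_
  simp only [Pi.sub_apply]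
  have hα := hW (Function.update σ x a)
  have hβ := hW (Function.update σ x b)
  have hγ := hW (Function.update σ x (-(a + b)))
  have hP := fun d => Av_all (W := W) hab d x g σ
  simp only [hP]
  have b1 := Av_self hW b x g σ
  have b2 := Av_pair (W := W) hab (rc_ne a b hab) x g σ
  have b3 := Av_pair (W := W) hab (rc_ne' a b hab) x g σ
  have a1 := Av_self hW a x (Av W (Rc b) x g) σ
  have a2 := Av_pair (W := W) (a := b) (b := a) hab.symm (rc_ne b a hab.symm) x
    (Av W (Rc b) x g) σ
  have a3 := Av_pair (W := W) (a := b) (b := a) hab.symm (rc_ne' b a hab.symm) x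
    (Av W (Rc b) x g) σ
  rw [hba] at a2 a3
  rw [a1, a2, a3, b1, b2, b3]
  have hag : W (Function.update σ x a) + W (Function.update σ x (-(a + b))) ≠ 0 :=
    (add_pos hα hγ).ne'
  have hbg : W (Function.update σ x b) + W (Function.update σ x (-(a + b))) ≠ 0 :=
    (add_pos hβ hγ).ne'
  have hs : W (Function.update σ x a) + W (Function.update σ x b) +
      W (Function.update σ x (-(a + b))) ≠ 0 := (add_pos (add_pos hα hβ) hγ).ne'
  exact three_pts hα hβ hγ (hc σ a b hab) (mul_div_cancel₀ _ hag) (mul_div_cancel₀ _ hbg)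
    (mul_div_cancel₀ _ hs)

/-- the comparison on a list of conditionally independent sites -/
theorem block {ι : Type} (hW : ∀ σ, 0 < W σ) {ρ : ℝ} (hρ : 0 < ρ) (j : ι → S)
    (hj : Function.Injective j) (hi : ∀ i i', i ≠ i' → Ind W (j i) (j i'))
    (hc : ∀ i, Cor W (ρ ^ 2) (j i)) (f : (S → ZMod 3) → ℝ) (l : List ι) (hl : l.Nodup) :
    2 * (1 - ρ) * (Bf W f f - Bf W ((l.map fun i => Av W Rf (j i)).prod f)
      ((l.map fun i => Av W Rf (j i)).prod f)) ≤
      ∑ c, (Bf W f f - Bf W ((l.map fun i => Av W (Rc c) (j i)).prod f)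
        ((l.map fun i => Av W (Rc c) (j i)).prod f)) := by
  have hB := frm (W := W) fun σ => (hW σ).le
  have hcm : ∀ (R R' : ZMod 3 → Finset (ZMod 3)), Blk R → Blk R' → ∀ i i', i ≠ i' →
      Commute (Av W R (j i)) (Av W R' (j i')) := fun R R' hR hR' i i' h =>
    Av_comm hW hR hR' (fun h1 => h (hj h1)) (hi i i' h)
  have hPP : ∀ i i', Commute (Av W Rf (j i)) (Av W Rf (j i')) := by
    intro i i'
    by_cases h : i = i'
    · rw [h]
    · exact hcm _ _ blk_f blk_f i i' h
  have hFF : ∀ c i i', Commute (Av W (Rc c) (j i)) (Av W (Rc c) (j i')) := by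
    intro c i i'
    by_cases h : i = i'
    · rw [h]
    · exact hcm _ _ (blk_c c) (blk_c c) i i' h
  have hPp : ∀ i, Prj (Bf W) (Av W Rf (j i)) := fun i => Av_prj hW blk_f _
  have hFp : ∀ c i, Prj (Bf W) (Av W (Rc c) (j i)) := fun c i => Av_prj hW (blk_c c) _
  have hPl := Prj.list hPp hPP l
  have hFl := fun c => Prj.list (hFp c) (hFF c) l
  have h1 : ∀ c v, (l.map fun i => Av W Rf (j i)).prod
      ((l.map fun i => Av W (Rc c) (j i)).prod v) = (l.map fun i => Av W Rf (j i)).prod v := by
    intro c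
    exact (tens hB (T := fun i => Av W (Rc c) (j i)) (P := fun i => Av W Rf (j i)) hPp hPP
      (fun i i' h => hcm _ _ (blk_c c) blk_f i i' h) (fun i v => Fc_Pf hW c _ v)
      (fun i v => (hFp c i).le hB v) (R := 1) (fun i v => by
        have e1 : Av W (Rc c) (j i) v - Av W Rf (j i) v =
            Av W (Rc c) (j i) (v - Av W Rf (j i) v) := by
          rw [map_sub, Pf_Fc hW]
        rw [e1, one_mul]
        exact (hFp c i).le hB _) l hl).1
  have h2 : ∀ c v, (l.map fun i => Av W (Rc c) (j i)).prod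
      ((l.map fun i => Av W Rf (j i)).prod v) = (l.map fun i => Av W Rf (j i)).prod v := by
    intro c v
    refine Bf_ext hW fun g => ?_
    rw [(hFl c).sa, hPl.sa, h1, ← hPl.sa]
  refine three hB hFl hPl h1 h2 hρ (fun c d v hcd => ?_) f
  have h3 := (tens hB (T := fun i => Av W (Rc c) (j i) * Av W (Rc d) (j i))
    (P := fun i => Av W Rf (j i)) hPp hPP
    (fun i i' h => (hcm _ _ (blk_c c) blk_f i i' h).mul_left (hcm _ _ (blk_c d) blk_f i i' h))
    (fun i v => by
      show Av W Rf (j i) (Av W (Rc c) (j i) (Av W (Rc d) (j i) v)) = Av W Rf (j i) v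
      rw [Fc_Pf hW, Fc_Pf hW])
    (fun i v => ((hFp c i).le hB _).trans ((hFp d i).le hB v)) (R := ρ ^ 2)
    (fun i v => corr hW (hc i) hcd v) l hl).2 v
  have h4 := prod_mul (E := fun i => Av W (Rc c) (j i)) (F := fun i => Av W (Rc d) (j i))
    (fun i i' h => hcm _ _ (blk_c c) (blk_c d) i i' h) l hl
  rw [← h4] at h3
  exact h3

end Pool.Agent.WSK.Ht
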