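import Pool.Agent.Lib.MP_0209a0_pr.Sym
import Pool.Agent.Lib.MP_0209a0_pr.Fin

/-!
The relaxation time is the maximum of `2` and of the relaxation time on the colour-symmetric
functions.
-/

set_option autoImplicit false
set_option linter.unusedSectionVars false

namespace Pool.Agent.WSK

open Finset

variable {n : ℕ} [NeZero n] {σ τ ζ : Conf n} {c : ZMod 3} {p : ℝ} {ω : Finset (Edge n)}

/-- functions invariant under all permutations of the colours -/
def ColSym (f : Conf n → ℝ) : Prop := ∀ (φ : Equiv.Perm (ZMod 3)) (σ : Conf n), f (act φ σ) = f σ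

/-- twice the variance -/
noncomputable def vari (p : ℝ) (f : Conf n → ℝ) : ℝ :=
  ∑ σ, ∑ τ, potts p σ * potts p τ * (f σ - f τ) ^ 2

theorem vari_eq (p : ℝ) (f : Conf n → ℝ) :
    vari p f = 2 * (∑ σ : Conf n, potts p σ) * ip p f f - 2 * (∑ σ, potts p σ * f σ) ^ 2 := by
  unfold vari ip
  have e1 : ∀ σ τ, potts p σ * potts p τ * (f σ - f τ) ^ 2 =
      (potts p σ * (f σ * f σ)) * potts p τ + potts p σ * (potts p τ * (f τ * f τ)) -
        2 * ((potts p σ * f σ) * (potts p τ * f τ)) := by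
    intro σ τ
    ring
  simp only [e1, sum_sub_distrib, sum_add_distrib, ← mul_sum, ← sum_mul]
  ring

theorem potts_sum_le (p : ℝ) : ∑ σ : Conf n, potts p σ ≤ 1 := by
  unfold potts
  rw [← sum_div]
  exact div_self_le_one _

/-- the chessboard colouring -/
def chess (h : 2 ∣ n) : Conf n := fun x => if par h x = 0 then 0 else 1

theorem mono_chess (h : 2 ∣ n) : mono (chess h) = 0 := by
  rw [mono_eq, card_eq_zero, eq_empty_iff_forall_notMem]
  intro e he
  rw [mem_mE] at he
  unfold chess at he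
  rw [par_ev] at he
  have : ∀ a : ZMod 2, (if a = 0 then (0 : ZMod 3) else 1) ≠ if a + 1 = 0 then 0 else 1 := by
    decide
  exact this _ he

theorem potts_sum (h : 2 ∣ n) (hp1 : p ≤ 1) : ∑ σ : Conf n, potts p σ = 1 := by
  unfold potts
  rw [← sum_div]
  apply div_self
  have h1 : (1 : ℝ) ≤ ∑ τ : Conf n, (1 - p) ^ mono τ := by
    have h2 := single_le_sum (f := fun τ : Conf n => (1 - p) ^ mono τ)
      (fun τ _ => pow_nonneg (by linarith) _) (mem_univ (chess h))
    simp only [mono_chess, pow_zero] at h2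
    exact h2
  linarith

/-- splitting of an invariant quadratic form -/
theorem split_form (w : Conf n → Conf n → ℝ)
    (hw : ∀ (φ : Equiv.Perm (ZMod 3)) (σ τ : Conf n), w (act φ σ) (act φ τ) = w σ τ)
    {f g : Conf n → ℝ} (hf : ColSym f) (hg : ZeroAv g) :
    ∑ σ, ∑ τ, w σ τ * ((f σ + g σ) - (f τ + g τ)) ^ 2 =
      ∑ σ, ∑ τ, w σ τ * (f σ - f τ) ^ 2 + ∑ σ, ∑ τ, w σ τ * (g σ - g τ) ^ 2 := by
  set X : (Conf n → ℝ) → ℝ := fun g => ∑ σ, ∑ τ, w σ τ * ((f σ - f τ) * (g σ - g τ)) with hX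
  have h1 : ∀ φ : Equiv.Perm (ZMod 3), X (fun σ => g (act φ σ)) = X g := by
    intro φ
    show ∑ σ, ∑ τ, w σ τ * ((f σ - f τ) * (g (act φ σ) - g (act φ τ))) =
      ∑ σ, ∑ τ, w σ τ * ((f σ - f τ) * (g σ - g τ))
    rw [← sum_act φ (fun σ => ∑ τ, w σ τ * ((f σ - f τ) * (g σ - g τ)))]
    refine sum_congr rfl fun σ _ => ?_
    rw [← sum_act φ (fun τ => w (act φ σ) τ * ((f (act φ σ) - f τ) * (g (act φ σ) - g τ)))]
    refine sum_congr rfl fun τ _ => ?_
    rw [hw, hf, hf]
  have h2 : ∑ φ : Equiv.Perm (ZMod 3), X (fun σ => g (act φ σ)) = 0 := by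
    show ∑ φ : Equiv.Perm (ZMod 3), ∑ σ, ∑ τ,
      w σ τ * ((f σ - f τ) * (g (act φ σ) - g (act φ τ))) = 0
    rw [sum_comm]
    refine sum_eq_zero fun σ _ => ?_
    rw [sum_comm]
    refine sum_eq_zero fun τ _ => ?_
    rw [← mul_sum, ← mul_sum, sum_sub_distrib, hg σ, hg τ]
    ring
  have h3 : X g = 0 := by
    simp only [h1] at h2
    rw [sum_const, nsmul_eq_mul] at h2
    rcases mul_eq_zero.1 h2 with h4 | h4
    · exfalso
      have : (0 : ℝ) < ((univ : Finset (Equiv.Perm (ZMod 3))).card : ℝ) := by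
        exact_mod_cast card_pos.2 univ_nonempty
      linarith
    · exact h4
  have h4 : ∑ σ, ∑ τ, w σ τ * ((f σ + g σ) - (f τ + g τ)) ^ 2 =
      ∑ σ, ∑ τ, w σ τ * (f σ - f τ) ^ 2 + ∑ σ, ∑ τ, w σ τ * (g σ - g τ) ^ 2 + 2 * X g := by
    show _ = ∑ σ, ∑ τ, w σ τ * (f σ - f τ) ^ 2 + ∑ σ, ∑ τ, w σ τ * (g σ - g τ) ^ 2 +
      2 * ∑ σ, ∑ τ, w σ τ * ((f σ - f τ) * (g σ - g τ))
    simp only [mul_sum, ← sum_add_distrib]
    refine sum_congr rfl fun σ _ => sum_congr rfl fun τ _ => ?_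
    ring
  rw [h4, h3, mul_zero, add_zero]

/-- the average over the permutations -/
noncomputable def av6 (f : Conf n → ℝ) (σ : Conf n) : ℝ :=
  1 / 6 * ∑ φ : Equiv.Perm (ZMod 3), f (act φ σ)

theorem card_perm : Fintype.card (Equiv.Perm (ZMod 3)) = 6 := by decide

theorem av6_sym (f : Conf n → ℝ) : ColSym (av6 f) := by
  intro ψ σ
  unfold av6
  congr 1
  simp only [act_mul]
  exact Equiv.sum_comp (Equiv.mulRight ψ) (fun φ => f (act φ σ))

theorem av6_zero (f : Conf n → ℝ) : ZeroAv (fun σ => f σ - av6 f σ) := by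
  intro σ
  show ∑ φ : Equiv.Perm (ZMod 3), (f (act φ σ) - av6 f (act φ σ)) = 0
  simp only [av6_sym f _ σ]
  rw [sum_sub_distrib, sum_const, card_univ, card_perm, nsmul_eq_mul]
  unfold av6
  push_cast
  ring

theorem vari_zero_le (hp0 : 0 ≤ p) (hp1 : p ≤ 1) {g : Conf n → ℝ} (hg : ZeroAv g) :
    vari p g ≤ 2 * dir p g := by
  have h1 := half hp0 hp1 hg
  have h2 := vari_eq p g
  have h3 := potts_sum_le (n := n) p
  have h4 : 0 ≤ ip p g g := sum_nonneg fun σ _ =>
    mul_nonneg (potts_nonneg hp1 σ) (mul_self_nonneg _)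
  have h5 := sq_nonneg (∑ σ, potts p σ * g σ)
  have h6 := mul_le_mul_of_nonneg_right h3 h4
  nlinarith

/-- the test function -/
def tu (a : ZMod 3) : ℤ := if a = 0 then 2 else -1

/-- the colour of a site -/
noncomputable def one (σ : Conf n) : ℝ := ((tu (σ 0) : ℤ) : ℝ)

theorem tu_perm : ∀ a : ZMod 3, ∑ φ : Equiv.Perm (ZMod 3), tu (φ a) = 0 := by
  decide

theorem one_zero : ZeroAv (one (n := n)) := by
  intro σ
  show ∑ φ : Equiv.Perm (ZMod 3), ((tu (φ (σ 0)) : ℤ) : ℝ) = 0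
  rw [← Int.cast_sum, tu_perm, Int.cast_zero]

theorem tu_swap : ∀ a c : ZMod 3, tu a + tu (2 * c - a) = if a = c then 2 * tu c else - tu c := by
  decide

theorem tu_sum : ∀ a : ZMod 3, ∑ c : ZMod 3, (if a = c then 2 * tu c else - tu c) = 3 * tu a := by
  decide

theorem one_Kc (p : ℝ) (c : ZMod 3) (σ : Conf n) :
    ∑ τ, Kc p c σ τ * one τ = ((if σ 0 = c then 2 * tu c else - tu c : ℤ) : ℝ) / 2 := by
  refine sum_Kc_const p c σ one _ fun ω hω => ?_
  have hω' := mem_powerset.1 hω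
  have h1 : ∑ τ ∈ Nb c σ ω, one τ = ∑ τ ∈ Nb c σ ω, one (act (sw c) τ) := by
    refine Finset.sum_nbij' (act (sw c)) (act (sw c)) (fun τ hτ => ?_) (fun τ hτ => ?_)
      (fun τ _ => sw_sw c τ) (fun τ _ => sw_sw c τ) (fun τ _ => ?_)
    · rw [mem_Nb] at hτ ⊢
      exact compat_sw hω' hτ
    · rw [mem_Nb] at hτ ⊢
      exact compat_sw hω' hτ
    · rw [sw_sw]
  have h2 : ∀ τ ∈ Nb c σ ω, one τ + one (act (sw c) τ) =
      ((if σ 0 = c then 2 * tu c else - tu c : ℤ) : ℝ) := by
    intro τ hτ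
    rw [mem_Nb] at hτ
    show ((tu (τ 0) : ℤ) : ℝ) + ((tu (2 * c - τ 0) : ℤ) : ℝ) = _
    rw [← Int.cast_add, tu_swap]
    have h3 := hτ.c_iff 0
    by_cases h4 : σ 0 = c
    · rw [if_pos h4, if_pos (h3.2 h4)]
    · rw [if_neg h4, if_neg fun h5 => h4 (h3.1 h5)]
  have h3 : 2 * ∑ τ ∈ Nb c σ ω, one τ = ∑ τ ∈ Nb c σ ω, (one τ + one (act (sw c) τ)) := by
    rw [sum_add_distrib, ← h1]
    ring
  rw [sum_congr rfl h2, sum_const, nsmul_eq_mul] at h3
  linarith

theorem dir_one (p : ℝ) : dir p (one (n := n)) = ip p (one (n := n)) one := by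
  have h1 : dir p (one (n := n)) = 2 * ip p (one (n := n)) one - 2 / 3 * ∑ c : ZMod 3,
      ∑ σ : Conf n, ∑ τ, potts p σ * Kc p c σ τ * (one σ * one τ) := by
    rw [dir_eq]
    have e1 : ∀ c : ZMod 3, 1 / 3 * ∑ σ : Conf n, ∑ τ, potts p σ * Kc p c σ τ *
        (one σ - one τ) ^ 2 = 2 / 3 * ip p (one (n := n)) one - 2 / 3 * ∑ σ : Conf n, ∑ τ,
          potts p σ * Kc p c σ τ * (one σ * one τ) := by
      intro c
      rw [dir_c]
      ring
    simp only [e1]
    rw [sum_sub_distrib, ← mul_sum, ← mul_sum, sum_const, card_univ, ZMod.card, nsmul_eq_mul]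
    push_cast
    ring
  have h2 : ∑ c : ZMod 3, ∑ σ : Conf n, ∑ τ, potts p σ * Kc p c σ τ * (one σ * one τ) =
      3 / 2 * ip p (one (n := n)) one := by
    rw [sum_comm]
    unfold ip
    rw [mul_sum]
    refine sum_congr rfl fun σ _ => ?_
    have e1 : ∀ c : ZMod 3, ∑ τ, potts p σ * Kc p c σ τ * (one σ * one τ) =
        potts p σ * one σ * (((if σ 0 = c then 2 * tu c else - tu c : ℤ) : ℝ) / 2) := by
      intro c
      rw [← one_Kc p c σ, mul_sum]
      refine sum_congr rfl fun τ _ => ?_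
      ring
    simp only [e1]
    rw [← mul_sum, ← sum_div, ← Int.cast_sum, tu_sum]
    push_cast
    have : one σ = ((tu (σ 0) : ℤ) : ℝ) := rfl
    rw [this]
    ring
  rw [h1, h2]
  ring

theorem tu_sq : ∀ a : ZMod 3, 1 ≤ tu a * tu a := by
  decide

/-- The relaxation time is the maximum of `2` and of the relaxation time on the colour-symmetric
functions. -/
theorem relax_iff (he : Even n) (hp0 : 0 ≤ p) (hp1 : p ≤ 1) (T : ℝ) :
    Relax n p T ↔ 2 ≤ T ∧ ∀ f : Conf n → ℝ, ColSym f → vari p f ≤ T * dir p f := by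
  constructor
  · intro h
    refine ⟨?_, fun f _ => h f⟩
    have h1 : vari p (one (n := n)) ≤ T * dir p (one (n := n)) := h one
    have h2 : ∑ σ : Conf n, potts p σ * one σ = 0 := by
      have h3 : ∀ φ : Equiv.Perm (ZMod 3), ∑ σ : Conf n, potts p σ * one (act φ σ) =
          ∑ σ : Conf n, potts p σ * one σ := by
        intro φ
        rw [← sum_act φ (fun σ : Conf n => potts p σ * one σ)]
        refine sum_congr rfl fun σ _ => ?_
        rw [potts_act]
      have h4 : ∑ φ : Equiv.Perm (ZMod 3), ∑ σ : Conf n, potts p σ * one (act φ σ) = 0 := by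
        rw [sum_comm]
        refine sum_eq_zero fun σ _ => ?_
        rw [← mul_sum, one_zero σ, mul_zero]
      simp only [h3] at h4
      rw [sum_const, card_univ, card_perm, nsmul_eq_mul] at h4
      push_cast at h4
      linarith
    have h3 := vari_eq p (one (n := n))
    rw [h2, potts_sum he.two_dvd hp1] at h3
    rw [h3, dir_one] at h1
    have h4 : 1 ≤ ip p (one (n := n)) one := by
      have h5 : ∑ σ : Conf n, potts p σ * 1 ≤ ip p (one (n := n)) one := by
        unfold ip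
        refine sum_le_sum fun σ _ => mul_le_mul_of_nonneg_left ?_ (potts_nonneg hp1 σ)
        have := tu_sq (σ 0)
        have h6 : ((1 : ℤ) : ℝ) ≤ ((tu (σ 0) * tu (σ 0) : ℤ) : ℝ) := by exact_mod_cast this
        push_cast at h6
        exact h6
      rw [← sum_mul, potts_sum he.two_dvd hp1] at h5
      linarith
    by_contra hT
    push Not at hT
    have h5 : T * ip p (one (n := n)) one < 2 * ip p (one (n := n)) one :=
      mul_lt_mul_of_pos_right hT (by linarith)
    linarith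
  · rintro ⟨hT, h⟩ f
    show vari p f ≤ T * dir p f
    have hs := av6_sym f
    have hz := av6_zero f
    have e1 : vari p f = vari p (av6 f) + vari p (fun σ => f σ - av6 f σ) := by
      have := split_form (fun σ τ => potts p σ * potts p τ)
        (fun φ σ τ => by rw [potts_act, potts_act]) hs hz
      unfold vari
      rw [← this]
      refine sum_congr rfl fun σ _ => sum_congr rfl fun τ _ => ?_
      ring
    have e2 : dir p f = dir p (av6 f) + dir p (fun σ => f σ - av6 f σ) := by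
      have := split_form (fun σ τ => potts p σ * step p σ τ)
        (fun φ σ τ => by rw [potts_act, step_act]) hs hz
      unfold dir
      rw [← this]
      refine sum_congr rfl fun σ _ => sum_congr rfl fun τ _ => ?_
      ring
    have h1 := h _ hs
    have h2 := vari_zero_le hp0 hp1 hz
    have h3 := half hp0 hp1 hz
    have h4 : 0 ≤ ip p (fun σ => f σ - av6 f σ) (fun σ => f σ - av6 f σ) :=
      sum_nonneg fun σ _ => mul_nonneg (potts_nonneg hp1 σ) (mul_self_nonneg _)
    have h5 : 0 ≤ dir p (fun σ => f σ - av6 f σ) := h4.trans h3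
    have h6 := mul_le_mul_of_nonneg_right hT h5
    rw [e1, e2]
    linarith

end Pool.Agent.WSK
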