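import Pool.Agent.Lib.MP_0209a0_pr.Mg.G003
import Pool.Agent.Lib.MP_0209a0_pr.Mg.G004

/-!
Contraction of the oscillations, and the relaxation time at high temperature.
-/

set_option autoImplicit false
set_option linter.unusedSectionVars false

namespace Pool.Agent.WSK.Ht

open Finset

variable {n : ℕ} [NeZero n] {p : ℝ}

/-- the change at `x` is at most `d x` -/
def Osc (g : Conf n → ℝ) (d : Site n → ℝ) : Prop :=
  ∀ x σ a, |g (Function.update σ x a) - g σ| ≤ d x

theorem Osc.mono {g : Conf n → ℝ} {d d' : Site n → ℝ} (h : Osc g d) (hd : ∀ x, d x ≤ d' x) :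
    Osc g d' := fun x σ a => (h x σ a).trans (hd x)

theorem Osc.nonneg {g : Conf n → ℝ} {d : Site n → ℝ} (h : Osc g d) (x : Site n) : 0 ≤ d x :=
  (abs_nonneg _).trans (h x (fun _ => 0) 0)

theorem av_cnt (hn : 3 ≤ n) (hp : p < 1) (z : Site n) (g : Conf n → ℝ) (σ : Conf n) :
    Av (potts p) Rf z g σ = (∑ b, (1 - p) ^ cnt σ z b * g (Function.update σ z b)) /
      ∑ b, (1 - p) ^ cnt σ z b := by
  rw [Av_apply]
  simp only [Rf, potts_update hn, mul_assoc]
  rw [← mul_sum, ← mul_sum, mul_div_mul_left _ _ (Qf_pos hp σ z).ne']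

/-- the colours of the neighbours different from `z + dr i` -/
def cm (σ : Conf n) (z : Site n) (i : Fin 4) (b : ZMod 3) : ℕ :=
  ∑ j ∈ univ.erase i, if σ (z + dr j) = b then 1 else 0

theorem cnt_cm (σ : Conf n) (z : Site n) (i : Fin 4) (b : ZMod 3) :
    cnt σ z b = (if σ (z + dr i) = b then 1 else 0) + cm σ z i b := by
  unfold cnt cm
  exact (add_sum_erase univ (fun j => if σ (z + dr j) = b then 1 else 0) (mem_univ i)).symm

theorem cm_sum (σ : Conf n) (z : Site n) (i : Fin 4) {a b : ZMod 3} (hab : a ≠ b) :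
    cm σ z i a + cm σ z i b + cm σ z i (-(a + b)) = 3 := by
  have h1 : ∑ c : ZMod 3, cm σ z i c = 3 := by
    unfold cm
    rw [sum_comm]
    have h2 : ∀ j ∈ univ.erase i, ∑ c : ZMod 3, (if σ (z + dr j) = c then 1 else 0) = 1 := by
      intro j _
      rw [sum_ite_eq univ (σ (z + dr j)) fun _ => 1, if_pos (mem_univ _)]
    rw [sum_congr rfl h2, sum_const, card_erase_of_mem (mem_univ i), card_univ, Fintype.card_fin]
    rfl
  obtain ⟨h2, h3, h4⟩ := univ_abc a b hab
  rw [h2, sum_insert, sum_insert, sum_singleton] at h1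
  · omega
  · rw [mem_singleton]
    exact h4
  · rw [mem_insert, mem_singleton]
    rintro (h5 | h5)
    · exact hab h5
    · exact h3 h5

theorem cm_update (hn : 3 ≤ n) (σ : Conf n) (z : Site n) (i : Fin 4) (a b : ZMod 3) :
    cm (Function.update σ (z + dr i) a) z i b = cm σ z i b := by
  unfold cm
  refine sum_congr rfl fun j hj => ?_
  rw [Function.update_of_ne]
  intro h
  rw [add_right_inj] at h
  exact (mem_erase.1 hj).1 (dr_inj hn h)

/-- the law of the colour of a site when a neighbour changes -/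
theorem law_change (hn : 3 ≤ n) (hp0 : 0 ≤ p) (hp : p < 1) (σ : Conf n)
    (z : Site n) (i : Fin 4) (a : ZMod 3) {G : ZMod 3 → ℝ} {D : ℝ} (hD : 0 ≤ D)
    (hG : ∀ b b', |G b - G b'| ≤ D) :
    |(∑ b, (1 - p) ^ cnt (Function.update σ (z + dr i) a) z b * G b) /
        (∑ b, (1 - p) ^ cnt (Function.update σ (z + dr i) a) z b) -
      (∑ b, (1 - p) ^ cnt σ z b * G b) / ∑ b, (1 - p) ^ cnt σ z b| ≤ inf p * D := by
  by_cases ha : a = σ (z + dr i)
  · rw [ha, Function.update_eq_self, sub_self, abs_zero]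
    exact mul_nonneg (inf_nonneg hp0 hp) hD
  · have hinf : inf p = (1 - (1 - p)) / (1 + (1 - p) + (1 - p) ^ 3) := by
      rw [inf, sub_sub_cancel]
    rw [hinf]
    set y := 1 - p with hy
    have hy0 : 0 < y := by linarith
    have h2 : y ≤ 1 := by linarith
    set a₀ := σ (z + dr i) with ha₀
    have hsum := cm_sum σ z i ha
    have e1 : ∀ b, cnt (Function.update σ (z + dr i) a) z b =
        (if a = b then 1 else 0) + cm σ z i b := by
      intro b
      rw [cnt_cm _ z i, Function.update_self, cm_update hn]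
    have e2 : ∀ b, cnt σ z b = (if a₀ = b then 1 else 0) + cm σ z i b := fun b => cnt_cm σ z i b
    simp only [e1, e2]
    obtain ⟨-, h3, h4⟩ := univ_abc a a₀ ha
    rw [sum_abc ha, sum_abc ha, sum_abc ha, sum_abc ha, if_pos rfl, if_neg ha, if_neg h3,
      if_neg (Ne.symm ha), if_pos rfl, if_neg h4]
    simp only [zero_add]
    rw [add_comm 1 (cm σ z i a), add_comm 1 (cm σ z i a₀), pow_succ, pow_succ]
    set A := y ^ cm σ z i a with hA
    set B := y ^ cm σ z i a₀ with hB
    set C := y ^ cm σ z i (-(a + a₀)) with hC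
    have k1 := poly y hy0.le h2 _ _ _ hsum
    have k2 := poly y hy0.le h2 (cm σ z i a₀) (cm σ z i a) (cm σ z i (-(a + a₀))) (by omega)
    rw [← hA, ← hB, ← hC] at k1 k2
    have k3 := two_laws hy0 h2 (pow_pos hy0 _) (pow_pos hy0 _) (pow_pos hy0 _) k1
      (by
        refine k2.trans (le_of_eq ?_)
        ring) (hG a a₀) (hG a (-(a + a₀))) (hG a₀ (-(a + a₀)))
    have e3 : A * y = y * A := mul_comm _ _
    have e4 : B * y = y * B := mul_comm _ _
    rw [e3, e4]
    exact k3

open Classical in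
/-- averaging at one site -/
theorem osc_av (hn : 3 ≤ n) (hp0 : 0 ≤ p) (hp : p < 1) {g : Conf n → ℝ}
    {d : Site n → ℝ} (hg : Osc g d) (z : Site n) :
    Osc (Av (potts p) Rf z g) (fun x => if x = z then 0 else
      d x + if ∃ i, z + dr i = x then inf p * d z else 0) := by
  have hy0 : 0 < 1 - p := by linarith
  intro x σ a
  show |Av (potts p) Rf z g (Function.update σ x a) - Av (potts p) Rf z g σ| ≤
    if x = z then 0 else d x + if ∃ i, z + dr i = x then inf p * d z else 0
  by_cases hx : x = z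
  · rw [if_pos hx, hx]
    rw [Av_inv blk_f z g σ a (mem_univ _), sub_self, abs_zero]
  · rw [if_neg hx]
    set G : ZMod 3 → ℝ := fun b => g (Function.update σ z b) with hG
    have hGd : ∀ b b', |G b - G b'| ≤ d z := by
      intro b b'
      have := hg z (Function.update σ z b') b
      rwa [Function.update_idem] at this
    set k : ZMod 3 → ℝ := fun b => (1 - p) ^ cnt (Function.update σ x a) z b with hk
    have hk0 : ∀ b, 0 < k b := fun b => pow_pos hy0 _
    have hkS : 0 < ∑ b, k b := sum_pos (fun b _ => hk0 b) univ_nonempty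
    have e1 : |Av (potts p) Rf z g (Function.update σ x a) - (∑ b, k b * G b) / ∑ b, k b| ≤ d x := by
      rw [av_cnt hn hp, ← sub_div, abs_div, abs_of_pos hkS, div_le_iff₀ hkS, ← sum_sub_distrib,
        mul_sum]
      refine (abs_sum_le_sum_abs _ _).trans (sum_le_sum fun b _ => ?_)
      rw [Function.update_comm hx]
      have e2 : k b * g (Function.update (Function.update σ z b) x a) - k b * G b =
          k b * (g (Function.update (Function.update σ z b) x a) - g (Function.update σ z b)) := by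
        rw [hG]
        ring
      show |k b * g (Function.update (Function.update σ z b) x a) - k b * G b| ≤ d x * k b
      rw [e2, abs_mul, abs_of_pos (hk0 b), mul_comm]
      exact mul_le_mul_of_nonneg_right (hg x _ a) (hk0 b).le
    have e3 : |(∑ b, k b * G b) / (∑ b, k b) - Av (potts p) Rf z g σ| ≤
        if ∃ i, z + dr i = x then inf p * d z else 0 := by
      rw [av_cnt hn hp]
      by_cases hi : ∃ i, z + dr i = x
      · rw [if_pos hi]
        obtain ⟨i, hi⟩ := hi
        rw [hk, ← hi]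
        exact law_change hn hp0 hp σ z i a (hg.nonneg z) hGd
      · rw [if_neg hi]
        push Not at hi
        have e4 : ∀ b, k b = (1 - p) ^ cnt σ z b := by
          intro b
          rw [hk]
          show (1 - p) ^ cnt (Function.update σ x a) z b = _
          rw [cnt_update hi]
        simp only [e4]
        rw [sub_self, abs_zero]
    have e5 := abs_sub_le (Av (potts p) Rf z g (Function.update σ x a))
      ((∑ b, k b * G b) / ∑ b, k b) (Av (potts p) Rf z g σ)
    linarith

theorem op_back (z : Site n) (i : Fin 4) : z + dr i + dr (op i) = z := by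
  rw [dr_op, add_neg_cancel_right]

open Classical in
/-- averaging on a list of sites of one parity -/
theorem osc_list (hn : 3 ≤ n) (hp0 : 0 ≤ p) (hp : p < 1) {h : 2 ∣ n}
    {s : ZMod 2} {g : Conf n → ℝ} {D : ℝ} (hD : 0 ≤ D)
    (hg : Osc g fun x => if par h x = s then D else 0) :
    ∀ l : List (Cs h s), l.Nodup → Osc ((l.map fun i => Av (potts p) Rf i.1).prod g) (fun x =>
      if par h x = s then (if ∃ i ∈ l, i.1 = x then 0 else D) else
        inf p * D * ∑ i : Fin 4, if ∃ i' ∈ l, i'.1 = x + dr i then (1 : ℝ) else 0)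
  | [], _ => by
    refine Osc.mono hg fun x => ?_
    simp
  | z :: l, hl => by
    have ih := osc_list hn hp0 hp hD hg l (List.nodup_cons.1 hl).2
    have hzl : z ∉ l := (List.nodup_cons.1 hl).1
    rw [List.map_cons, List.prod_cons]
    have hinf := inf_nonneg hp0 hp
    have h3 := osc_av hn hp0 hp ih z.1
    refine Osc.mono h3 fun x => ?_
    have hzl' : ¬ ∃ i ∈ l, i.1 = z.1 := by
      rintro ⟨i, hi, hiz⟩
      exact hzl (Subtype.ext hiz ▸ hi)
    have ez : (if par h z.1 = s then (if ∃ i ∈ l, i.1 = z.1 then 0 else D) else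
        inf p * D * ∑ i : Fin 4, if ∃ i' ∈ l, i'.1 = z.1 + dr i then (1 : ℝ) else 0) = D := by
      rw [if_pos z.2, if_neg hzl']
    rw [ez]
    by_cases hx : x = z.1
    · rw [if_pos hx]
      have : par h x = s := by rw [hx]; exact z.2
      rw [if_pos this]
      split_ifs <;> simp [hD]
    · rw [if_neg hx]
      by_cases hs : par h x = s
      · rw [if_pos hs, if_pos hs]
        have hadj : ¬ ∃ i, z.1 + dr i = x := by
          rintro ⟨i, hi⟩
          have h4 := par_dr h z.1 i
          rw [hi, hs, z.2] at h4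
          exact z2_ne s h4.symm
        rw [if_neg hadj, add_zero]
        have hiff : (∃ i ∈ z :: l, i.1 = x) ↔ ∃ i ∈ l, i.1 = x := by
          constructor
          · rintro ⟨i, hi, hix⟩
            rcases List.mem_cons.1 hi with rfl | hi
            · exact absurd hix.symm hx
            · exact ⟨i, hi, hix⟩
          · rintro ⟨i, hi, hix⟩
            exact ⟨i, List.mem_cons_of_mem _ hi, hix⟩
        by_cases h5 : ∃ i ∈ l, i.1 = x
        · rw [if_pos h5, if_pos (hiff.2 h5)]
        · rw [if_neg h5, if_neg fun h6 => h5 (hiff.1 h6)]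
      · rw [if_neg hs, if_neg hs]
        have hmono : ∀ i : Fin 4, (if ∃ i' ∈ l, i'.1 = x + dr i then (1 : ℝ) else 0) ≤
            if ∃ i' ∈ z :: l, i'.1 = x + dr i then (1 : ℝ) else 0 := by
          intro i
          by_cases h5 : ∃ i' ∈ l, i'.1 = x + dr i
          · obtain ⟨i', hi', he⟩ := h5
            rw [if_pos ⟨i', hi', he⟩, if_pos ⟨i', List.mem_cons_of_mem _ hi', he⟩]
          · rw [if_neg h5]
            split_ifs <;> norm_num
        by_cases hadj : ∃ i, z.1 + dr i = x
        · rw [if_pos hadj]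
          obtain ⟨j, hj⟩ := hadj
          have hback : x + dr (op j) = z.1 := by rw [← hj, op_back]
          have h6 : (∑ i : Fin 4, if ∃ i' ∈ l, i'.1 = x + dr i then (1 : ℝ) else 0) + 1 ≤
              ∑ i : Fin 4, if ∃ i' ∈ z :: l, i'.1 = x + dr i then (1 : ℝ) else 0 := by
            rw [← add_sum_erase univ _ (mem_univ (op j)), ← add_sum_erase univ
              (fun i => if ∃ i' ∈ z :: l, i'.1 = x + dr i then (1 : ℝ) else 0) (mem_univ (op j))]
            have h7 : (if ∃ i' ∈ l, i'.1 = x + dr (op j) then (1 : ℝ) else 0) = 0 := by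
              rw [if_neg]
              rw [hback]
              exact hzl'
            have h8 : (if ∃ i' ∈ z :: l, i'.1 = x + dr (op j) then (1 : ℝ) else 0) = 1 := by
              rw [if_pos]
              exact ⟨z, List.mem_cons_self, hback.symm⟩
            have h9 := sum_le_sum fun i (_ : i ∈ univ.erase (op j)) => hmono i
            rw [h7]
            show _ ≤ (if ∃ i' ∈ z :: l, i'.1 = x + dr (op j) then (1 : ℝ) else 0) + _
            rw [h8]
            linarith
          have h10 := mul_le_mul_of_nonneg_left h6 (show 0 ≤ inf p * D by positivity)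
          linarith
        · rw [if_neg hadj, add_zero]
          exact mul_le_mul_of_nonneg_left (sum_le_sum fun i _ => hmono i) (by positivity)

/-- averaging on all sites of one parity -/
theorem osc_Ks (hn : 3 ≤ n) (hp0 : 0 ≤ p) (hp : p < 1) {h : 2 ∣ n}
    {s : ZMod 2} {g : Conf n → ℝ} {D : ℝ} (hD : 0 ≤ D)
    (hg : Osc g fun x => if par h x = s then D else 0) :
    Osc (Ks p h s g) fun x => if par h x = s then 0 else 4 * inf p * D := by
  classical
  have hinf := inf_nonneg hp0 hp
  unfold Ks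
  refine Osc.mono (osc_list hn hp0 hp hD hg _ (nodup_toList _)) fun x => ?_
  by_cases hs : par h x = s
  · rw [if_pos hs, if_pos hs, if_pos]
    exact ⟨⟨x, hs⟩, by simp, rfl⟩
  · rw [if_neg hs, if_neg hs]
    have h3 : (∑ i : Fin 4, if ∃ i' ∈ (univ : Finset (Cs h s)).toList, i'.1 = x + dr i then (1 : ℝ)
        else 0) ≤ ∑ _i : Fin 4, (1 : ℝ) :=
      sum_le_sum fun i _ => by split_ifs <;> norm_num
    have h4 : ∑ _i : Fin 4, (1 : ℝ) = 4 := by simp
    rw [h4] at h3
    have h5 := mul_le_mul_of_nonneg_left h3 (show 0 ≤ inf p * D by positivity)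
    refine h5.trans (le_of_eq ?_)
    ring

/-! ### from oscillations to the norm -/

theorem osc_total {g : Conf n → ℝ} {d : Site n → ℝ} (hg : Osc g d) (T : Finset (Site n)) :
    ∀ σ τ : Conf n, (∀ x, x ∉ T → σ x = τ x) → |g σ - g τ| ≤ ∑ x ∈ T, d x := by
  induction T using Finset.induction_on with
  | empty =>
    intro σ τ h
    have : σ = τ := funext fun x => h x (notMem_empty x)
    rw [this, sub_self, abs_zero, sum_empty]
  | insert x T hx ih =>
    intro σ τ h
    rw [sum_insert hx]
    have h1 := ih (Function.update σ x (τ x)) τ fun z hz => by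
      by_cases hzx : z = x
      · rw [hzx, Function.update_self]
      · rw [Function.update_of_ne hzx]
        exact h z fun h2 => by
          rcases mem_insert.1 h2 with h3 | h3
          · exact hzx h3
          · exact hz h3
    have h2 := hg x σ (τ x)
    have h3 := abs_sub_le (g σ) (g (Function.update σ x (τ x))) (g τ)
    have h4 : |g σ - g (Function.update σ x (τ x))| ≤ d x := by
      rw [abs_sub_comm]
      exact h2
    linarith

theorem norm_le {h : 2 ∣ n} (hp : p < 1) {g : Conf n → ℝ} {d : Site n → ℝ}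
    (hg : Osc g d) (h0 : Bf (potts p) g (fun _ => 1) = 0) :
    Bf (potts p) g g ≤ (∑ x, d x) ^ 2 := by
  set M := ∑ x, d x with hM
  have hM0 : 0 ≤ M := sum_nonneg fun x _ => hg.nonneg x
  have hs := potts_sum (n := n) h hp.le
  have h1 : ∀ σ, |g σ| ≤ M := by
    intro σ
    have e1 : g σ = ∑ τ, potts p τ * (g σ - g τ) := by
      have e2 : ∑ τ, potts p τ * (g σ - g τ) = (∑ τ : Conf n, potts p τ) * g σ -
          ∑ τ, potts p τ * (g τ * 1) := by
        rw [sum_mul, ← sum_sub_distrib]
        refine sum_congr rfl fun τ _ => ?_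
        ring
      rw [Bf_apply] at h0
      rw [e2, hs, h0]
      ring
    rw [e1]
    refine (abs_sum_le_sum_abs _ _).trans ?_
    have e3 : ∀ τ ∈ (univ : Finset (Conf n)), |potts p τ * (g σ - g τ)| ≤ potts p τ * M := by
      intro τ _
      rw [abs_mul, abs_of_pos (potts_pos hp τ)]
      exact mul_le_mul_of_nonneg_left (osc_total hg univ σ τ fun x hx => absurd (mem_univ x) hx)
        (potts_pos hp τ).le
    refine (sum_le_sum e3).trans (le_of_eq ?_)
    rw [← sum_mul, hs, one_mul]
  rw [Bf_apply]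
  have h2 : ∀ σ ∈ (univ : Finset (Conf n)), potts p σ * (g σ * g σ) ≤ potts p σ * M ^ 2 := by
    intro σ _
    refine mul_le_mul_of_nonneg_left ?_ (potts_pos hp σ).le
    have := h1 σ
    rw [← abs_mul_abs_self (g σ), sq]
    exact mul_le_mul this this (abs_nonneg _) hM0
  refine (sum_le_sum h2).trans (le_of_eq ?_)
  rw [← sum_mul, hs, one_mul]

/-! ### invariance -/

theorem list_fix (hn : 3 ≤ n) (hp : p < 1) {h : 2 ∣ n} {s : ZMod 2} (v : Conf n → ℝ) :
    ∀ l : List (Cs h s), ∀ z ∈ l, Av (potts p) Rf z.1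
      ((l.map fun i => Av (potts p) Rf i.1).prod v) = (l.map fun i => Av (potts p) Rf i.1).prod v
  | [], z, hz => absurd hz List.not_mem_nil
  | i :: l, z, hz => by
    rw [List.map_cons, List.prod_cons]
    show Av (potts p) Rf z.1 (Av (potts p) Rf i.1 ((l.map fun i => Av (potts p) Rf i.1).prod v)) =
      Av (potts p) Rf i.1 ((l.map fun i => Av (potts p) Rf i.1).prod v)
    rcases List.mem_cons.1 hz with rfl | hz
    · exact (Av_prj (potts_pos hp) blk_f z.1).idem _
    · have h1 := LinearMap.congr_fun (Pc hn hp z i)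
        ((l.map fun i => Av (potts p) Rf i.1).prod v)
      have h2 : Av (potts p) Rf z.1 (Av (potts p) Rf i.1
          ((l.map fun i => Av (potts p) Rf i.1).prod v)) = Av (potts p) Rf i.1
            (Av (potts p) Rf z.1 ((l.map fun i => Av (potts p) Rf i.1).prod v)) := h1
      rw [h2, list_fix hn hp v l z hz]

theorem Ks_osc (hn : 3 ≤ n) (hp : p < 1) {h : 2 ∣ n} (s : ZMod 2) (v : Conf n → ℝ) :
    ∃ D : ℝ, 0 ≤ D ∧ Osc (Ks p h s v) fun x => if par h x = s + 1 then D else 0 := by
  set w := Ks p h s v with hw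
  refine ⟨∑ x : Site n, ∑ σ : Conf n, ∑ a : ZMod 3, |w (Function.update σ x a) - w σ|,
    sum_nonneg fun x _ => sum_nonneg fun σ _ => sum_nonneg fun a _ => abs_nonneg _, ?_⟩
  intro x σ a
  show |w (Function.update σ x a) - w σ| ≤ if par h x = s + 1 then
    ∑ x : Site n, ∑ σ : Conf n, ∑ a : ZMod 3, |w (Function.update σ x a) - w σ| else 0
  by_cases hx : par h x = s + 1
  · rw [if_pos hx]
    have h1 : |w (Function.update σ x a) - w σ| ≤ ∑ a : ZMod 3, |w (Function.update σ x a) - w σ| :=
      single_le_sum (f := fun a => |w (Function.update σ x a) - w σ|)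
        (fun a _ => abs_nonneg _) (mem_univ a)
    have h2 : ∑ a : ZMod 3, |w (Function.update σ x a) - w σ| ≤
        ∑ σ : Conf n, ∑ a : ZMod 3, |w (Function.update σ x a) - w σ| :=
      single_le_sum (f := fun σ => ∑ a : ZMod 3, |w (Function.update σ x a) - w σ|)
        (fun σ _ => sum_nonneg fun a _ => abs_nonneg _) (mem_univ σ)
    have h3 : ∑ σ : Conf n, ∑ a : ZMod 3, |w (Function.update σ x a) - w σ| ≤
        ∑ x : Site n, ∑ σ : Conf n, ∑ a : ZMod 3, |w (Function.update σ x a) - w σ| :=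
      single_le_sum (f := fun x => ∑ σ : Conf n, ∑ a : ZMod 3, |w (Function.update σ x a) - w σ|)
        (fun x _ => sum_nonneg fun σ _ => sum_nonneg fun a _ => abs_nonneg _) (mem_univ x)
    exact h1.trans (h2.trans h3)
  · rw [if_neg hx]
    have key : ∀ a b : ZMod 2, a ≠ b + 1 → a = b := by decide
    have hs := key _ _ hx
    have h1 : Av (potts p) Rf x w = w :=
      list_fix hn hp v (univ : Finset (Cs h s)).toList ⟨x, hs⟩ (by simp)
    have h2 := Av_inv (W := potts p) blk_f x w σ a (mem_univ _)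
    rw [h1] at h2
    rw [h2, sub_self, abs_zero]

theorem list_one (hp : p < 1) {h : 2 ∣ n} {s : ZMod 2} :
    ∀ l : List (Cs h s), (l.map fun i => Av (potts p) Rf i.1).prod (fun _ => (1 : ℝ)) =
      fun _ => (1 : ℝ)
  | [] => by simp
  | i :: l => by
    rw [List.map_cons, List.prod_cons]
    show Av (potts p) Rf i.1 ((l.map fun i => Av (potts p) Rf i.1).prod fun _ => (1 : ℝ)) = _
    rw [list_one hp l]
    exact Inv.av (potts_pos hp) blk_f fun _ _ _ => rfl

theorem Ks_mean (hn : 3 ≤ n) (hp : p < 1) {h : 2 ∣ n} (s : ZMod 2) {v : Conf n → ℝ}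
    (hv : Bf (potts p) v (fun _ => 1) = 0) : Bf (potts p) (Ks p h s v) (fun _ => 1) = 0 := by
  rw [(Ks_prj hn hp h s).sa]
  have : Ks p h s (fun _ => (1 : ℝ)) = fun _ => (1 : ℝ) := list_one hp _
  rw [this, hv]

/-! ### the two parities -/

theorem gap_two (hn : 3 ≤ n) (hp0 : 0 ≤ p) (hp : p < 1) (h : 2 ∣ n) {r : ℝ} (hr0 : 0 < r)
    (hr : 4 * inf p ≤ r) {v : Conf n → ℝ} (hv : Bf (potts p) v (fun _ => 1) = 0) :
    (1 - r) * Bf (potts p) v v ≤ (Bf (potts p) v v - Bf (potts p) (Ks p h 0 v) (Ks p h 0 v)) +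
      (Bf (potts p) v v - Bf (potts p) (Ks p h 1 v) (Ks p h 1 v)) := by
  have hB := frm (W := potts (n := n) p) fun σ => (potts_pos hp σ).le
  set w := Ks p h 1 v with hw
  have hwm : Bf (potts p) w (fun _ => 1) = 0 := Ks_mean hn hp 1 hv
  obtain ⟨D, hD, hosc⟩ := Ks_osc hn hp (h := h) 1 v
  let K : ℕ → Module.End ℝ (Conf n → ℝ) := fun k => Ks p h (k : ZMod 2)
  let y : ℕ → Conf n → ℝ := fun k => Nat.rec w (fun k u => K k u) k
  have hy0 : y 0 = w := rfl
  have hy : ∀ k, y (k + 1) = K k (y k) := fun _ => rfl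
  have hym : ∀ k, Bf (potts p) (y k) (fun _ => 1) = 0 := by
    intro k
    induction k with
    | zero => exact hwm
    | succ k ih =>
      rw [hy k]
      exact Ks_mean hn hp _ ih
  have hyo : ∀ k, Osc (y k) fun x => if par h x = (k : ZMod 2) then r ^ k * D else 0 := by
    intro k
    induction k with
    | zero =>
      rw [hy0]
      refine Osc.mono hosc fun x => ?_
      have : (1 : ZMod 2) + 1 = ((0 : ℕ) : ZMod 2) := by decide
      rw [this, pow_zero, one_mul]
    | succ k ih =>
      rw [hy k]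
      refine Osc.mono (osc_Ks hn hp0 hp (by positivity) ih) fun x => ?_
      by_cases hx : par h x = (k : ZMod 2)
      · rw [if_pos hx]
        split_ifs
        · positivity
        · exact le_rfl
      · rw [if_neg hx]
        have key : ∀ a b : ZMod 2, a ≠ b → a = b + 1 := by decide
        have h3 : par h x = ((k + 1 : ℕ) : ZMod 2) := by
          push_cast
          exact key _ _ hx
        rw [if_pos h3, pow_succ]
        calc 4 * inf p * (r ^ k * D) ≤ r * (r ^ k * D) :=
              mul_le_mul_of_nonneg_right hr (by positivity)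
          _ = r ^ k * r * D := by ring
  have hyn : ∀ k, Bf (potts p) (y k) (y k) ≤
      ((Fintype.card (Site n) : ℝ) * D) ^ 2 * (r ^ 2) ^ k := by
    intro k
    refine (norm_le (h := h) hp (hyo k) (hym k)).trans ?_
    have e1 : ∑ x : Site n, (if par h x = (k : ZMod 2) then r ^ k * D else 0) ≤
        (Fintype.card (Site n) : ℝ) * (r ^ k * D) := by
      have e2 : ∑ x : Site n, (if par h x = (k : ZMod 2) then r ^ k * D else 0) ≤
          ∑ _x : Site n, r ^ k * D :=
        sum_le_sum fun x _ => by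
          split_ifs
          · exact le_rfl
          · positivity
      refine e2.trans (le_of_eq ?_)
      rw [sum_const, card_univ, nsmul_eq_mul]
    have e3 : 0 ≤ ∑ x : Site n, (if par h x = (k : ZMod 2) then r ^ k * D else 0) :=
      sum_nonneg fun x _ => by split_ifs <;> positivity
    refine (pow_le_pow_left₀ e3 e1 2).trans (le_of_eq ?_)
    rw [← pow_mul, mul_comm 2 k, pow_mul]
    ring
  have hKw : K 1 w = w := by
    show Ks p h ((1 : ℕ) : ZMod 2) (Ks p h 1 v) = Ks p h 1 v
    rw [Nat.cast_one]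
    exact (Ks_prj hn hp h 1).idem v
  have h3 := alt hB (K := K) (fun k => Ks_prj hn hp h _) (fun k => by
    show Ks p h ((k + 2 : ℕ) : ZMod 2) = Ks p h (k : ZMod 2)
    have : ((k + 2 : ℕ) : ZMod 2) = (k : ZMod 2) := by
      push_cast
      rw [show (2 : ZMod 2) = 0 by decide, add_zero]
    rw [this]) (R := r ^ 2) (by positivity) hKw y hy0 hy hyn
  have h4 : K 0 = Ks p h 0 := by
    show Ks p h ((0 : ℕ) : ZMod 2) = Ks p h 0
    rw [Nat.cast_zero]
  rw [h4] at h3
  have h5 := two hB (Ks_prj hn hp h 0) (Ks_prj hn hp h 1) hr0 v h3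
  exact h5

/-! ### the relaxation time -/

theorem rh_eq (hp : p < 1) : (1 - rh p) * (1 - p) ^ 4 = (1 - p) ^ 8 / (1 + (1 - p) ^ 4) := by
  unfold rh
  have h : 0 < (1 - p) ^ 4 := pow_pos (by linarith) _
  have h2 : (1 : ℝ) + (1 - p) ^ 4 ≠ 0 := by linarith
  field_simp
  ring

/-- every function is close to the functions of the sites of one parity -/
theorem VP_le (hn : 3 ≤ n) (hp0 : 0 ≤ p) (hp : p < 1) (h : 2 ∣ n) (s : ZMod 2)
    (f : Conf n → ℝ) :
    Bf (potts p) f f - Bf (potts p) (Ks p h s f) (Ks p h s f) ≤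
      3 / 4 * (1 + (1 - p) ^ 4) / (1 - p) ^ 8 * dir p f := by
  have d0 : 4 / 3 * (1 - rh p) * (1 - p) ^ 4 * (Bf (potts p) f f -
      Bf (potts p) (Ks p h s f) (Ks p h s f)) ≤ dir p f := dir_ge hn hp0 hp h s f
  have e1 := rh_eq hp
  set V := Bf (potts p) f f - Bf (potts p) (Ks p h s f) (Ks p h s f)
  have h8 : 0 < (1 - p) ^ 8 := pow_pos (by linarith) _
  have h4 : 0 < (1 - p) ^ 4 := pow_pos (by linarith) _
  have e2 : 4 / 3 * (1 - rh p) * (1 - p) ^ 4 * V = 4 / 3 * ((1 - p) ^ 8 / (1 + (1 - p) ^ 4)) * V := by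
    rw [← e1]
    ring
  rw [e2] at d0
  have hne : (1 - p) ≠ 0 := by
    intro h0
    linarith
  have e3 : V = 3 / 4 * (1 + (1 - p) ^ 4) / (1 - p) ^ 8 *
      (4 / 3 * ((1 - p) ^ 8 / (1 + (1 - p) ^ 4)) * V) := by
    field_simp
  rw [e3]
  exact mul_le_mul_of_nonneg_left d0 (by positivity)

theorem relax_high (hn : 4 ≤ n) (he : Even n) (hp0 : 0 ≤ p) (hp1 : p < 1)
    (hp : 4 * p < 1 + (1 - p) + (1 - p) ^ 3) :
    Relax n p (3 * (1 + (1 - p) ^ 4) * (1 + (1 - p) + (1 - p) ^ 3) /
      ((1 - p) ^ 8 * (1 + (1 - p) + (1 - p) ^ 3 - 4 * p))) := by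
  intro f
  show vari p f ≤ _ * dir p f
  have h : 2 ∣ n := he.two_dvd
  set m := ∑ σ, potts p σ * f σ with hm
  set v : Conf n → ℝ := fun σ => f σ - m with hv
  have e1 : vari p f = vari p v := by
    unfold vari
    refine sum_congr rfl fun σ _ => sum_congr rfl fun τ _ => ?_
    rw [hv]
    ring
  have e2 : dir p f = dir p v := by
    unfold dir
    refine sum_congr rfl fun σ _ => sum_congr rfl fun τ _ => ?_
    rw [hv]
    ring
  have hs := potts_sum (n := n) h hp1.le
  have hv0 : ∑ σ, potts p σ * v σ = 0 := by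
    have e3 : ∑ σ, potts p σ * v σ = ∑ σ, potts p σ * f σ - (∑ σ : Conf n, potts p σ) * m := by
      rw [sum_mul, ← sum_sub_distrib]
      refine sum_congr rfl fun σ _ => ?_
      rw [hv]
      ring
    rw [e3, hs, ← hm]
    ring
  have hv1 : Bf (potts p) v (fun _ => 1) = 0 := by
    rw [Bf_apply, ← hv0]
    refine sum_congr rfl fun σ _ => ?_
    ring
  have e4 : vari p v = 2 * Bf (potts p) v v := by
    rw [vari_eq, hs, hv0, ip_eq]
    ring
  have d0 := VP_le (by omega) hp0 hp1 h 0 v
  have d1 := VP_le (by omega) hp0 hp1 h 1 v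
  have hK : 0 < 1 + (1 - p) + (1 - p) ^ 3 := by
    have : 0 < 1 - p := by linarith
    positivity
  have h8 : 0 < (1 - p) ^ 8 := pow_pos (by linarith) _
  have h4 : 0 < (1 - p) ^ 4 := pow_pos (by linarith) _
  have hB := frm (W := potts (n := n) p) fun σ => (potts_pos hp1 σ).le
  have hr1 : 4 * inf p < 1 := by
    unfold inf
    rw [← mul_div_assoc, div_lt_one hK]
    exact hp
  have hr0 := inf_nonneg hp0 hp1
  rw [e1, e2, e4]
  set X := Bf (potts p) v v
  have hX : 0 ≤ X := hB.nonneg v
  set c := 3 / 4 * (1 + (1 - p) ^ 4) / (1 - p) ^ 8 with hc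
  have key : (1 - 4 * inf p) * X ≤ 2 * (c * dir p v) := by
    by_contra hcon
    push Not at hcon
    set d := (1 - 4 * inf p) * X - 2 * (c * dir p v) with hd
    have hd0 : 0 < d := by linarith
    have g1 := gap_two (by omega) hp0 hp1 h (r := 4 * inf p + d / (X + 1))
      (by positivity) (by
        have : 0 < d / (X + 1) := by positivity
        linarith) hv1
    have e5 : (1 - (4 * inf p + d / (X + 1))) * X = (1 - 4 * inf p) * X - d * (X / (X + 1)) := by
      field_simp
      ring
    rw [e5] at g1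
    have e6 : X / (X + 1) < 1 := by
      rw [div_lt_one (by linarith)]
      linarith
    have e7 : d * (X / (X + 1)) < d * 1 := mul_lt_mul_of_pos_left e6 hd0
    linarith
  have e8 : 1 - 4 * inf p = (1 + (1 - p) + (1 - p) ^ 3 - 4 * p) / (1 + (1 - p) + (1 - p) ^ 3) := by
    unfold inf
    field_simp
  have hpos : 0 < 1 + (1 - p) + (1 - p) ^ 3 - 4 * p := by linarith
  have hr2 : 0 < 1 - 4 * inf p := by linarith
  have e9 : 3 * (1 + (1 - p) ^ 4) * (1 + (1 - p) + (1 - p) ^ 3) /
      ((1 - p) ^ 8 * (1 + (1 - p) + (1 - p) ^ 3 - 4 * p)) * dir p v =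
      4 * (c * dir p v) / (1 - 4 * inf p) := by
    rw [e8, hc]
    field_simp
  rw [e9, le_div_iff₀ hr2]
  linarith

/-- the average over one parity depends on the other parity only -/
theorem Ks_dep (hn : 3 ≤ n) (hp : p < 1) (h : 2 ∣ n) (s : ZMod 2) (f : Conf n → ℝ)
    {σ τ : Conf n} (hστ : ∀ x, par h x = s → σ x = τ x) :
    Ks p h (s + 1) f σ = Ks p h (s + 1) f τ := by
  classical
  obtain ⟨D, -, hosc⟩ := Ks_osc hn hp (h := h) (s + 1) f
  have h1 := osc_total hosc (univ.filter fun x => par h x ≠ s) σ τ fun x hx => hστ x (by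
    by_contra h2
    exact hx (mem_filter.2 ⟨mem_univ _, h2⟩))
  have h2 : ∑ x ∈ univ.filter (fun x => par h x ≠ s),
      (if par h x = s + 1 + 1 then D else 0) = 0 := by
    refine sum_eq_zero fun x hx => ?_
    have e1 : ∀ s : ZMod 2, s + 1 + 1 = s := by decide
    rw [e1, if_neg (mem_filter.1 hx).2]
  rw [h2] at h1
  have h3 := abs_nonneg (Ks p h (s + 1) f σ - Ks p h (s + 1) f τ)
  have h4 : |Ks p h (s + 1) f σ - Ks p h (s + 1) f τ| = 0 := le_antisymm h1 h3
  exact sub_eq_zero.1 (abs_eq_zero.1 h4)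

theorem par_val (h : 2 ∣ n) (x : Site n) : par h x = ((x.1.val + x.2.val : ℕ) : ZMod 2) := by
  unfold par
  have key : ∀ a : ZMod n, ZMod.castHom h (ZMod 2) a = ((a.val : ℕ) : ZMod 2) := by
    intro a
    conv_lhs => rw [← ZMod.natCast_zmod_val a]
    rw [map_natCast]
  rw [key, key]
  push_cast
  ring

/-- the two parities -/
theorem near (hn : 3 ≤ n) (he : Even n) (hp0 : 0 ≤ p) (hp : p < 1) (s : ZMod 2)
    (f : Conf n → ℝ) : ∃ g : Conf n → ℝ,
    (∀ σ τ : Conf n, (∀ x : Site n, ((x.1.val + x.2.val : ℕ) : ZMod 2) = s → σ x = τ x) →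
      g σ = g τ) ∧
    ∑ σ, potts p σ * (f σ - g σ) ^ 2 ≤ 3 / 4 * (1 + (1 - p) ^ 4) / (1 - p) ^ 8 *
      ∑ σ, ∑ τ, potts p σ * step p σ τ * (f σ - f τ) ^ 2 := by
  have h : 2 ∣ n := he.two_dvd
  refine ⟨Ks p h (s + 1) f, fun σ τ hστ => Ks_dep hn hp h s f fun x hx => hστ x ?_, ?_⟩
  · rw [← par_val h]
    exact hx
  · have h1 := VP_le hn hp0 hp h (s + 1) f
    have hB := frm (W := potts (n := n) p) fun σ => (potts_pos hp σ).le
    rw [← (Ks_prj hn hp h (s + 1)).sub hB] at h1
    refine le_trans (le_of_eq ?_) h1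
    rw [Bf_apply]
    refine sum_congr rfl fun σ _ => ?_
    show _ = potts p σ * ((f σ - Ks p h (s + 1) f σ) * (f σ - Ks p h (s + 1) f σ))
    ring

end Pool.Agent.WSK.Ht
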