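import Pool.Agent.Lib.MP_0209a0_pr.Eng

/-!
Permutations of the colours: the spectrum off the colour-symmetric functions.
-/

set_option autoImplicit false
set_option linter.unusedSectionVars false

namespace Pool.Agent.WSK

open Finset

variable {n : ℕ} [NeZero n] {σ τ ζ : Conf n} {c : ZMod 3} {p : ℝ} {ω : Finset (Edge n)}

/-- the transition with the kept colour `c` and the open edges `ω` -/
noncomputable def Kw (c : ZMod 3) (ω : Finset (Edge n)) (σ τ : Conf n) : ℝ := by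
  classical
  exact if Compat σ τ c ω then 1 / ((Nb c σ ω).card : ℝ) else 0

/-- the transition with the kept colour `c` -/
noncomputable def Kc (p : ℝ) (c : ZMod 3) (σ τ : Conf n) : ℝ :=
  ∑ ω ∈ (elig σ c).powerset, p ^ ω.card * (1 - p) ^ ((elig σ c).card - ω.card) * Kw c ω σ τ

theorem Kw_nonneg (c : ZMod 3) (ω : Finset (Edge n)) (σ τ : Conf n) : 0 ≤ Kw c ω σ τ := by
  unfold Kw
  split_ifs <;> positivity

theorem step_eq (p : ℝ) (σ τ : Conf n) : step p σ τ = ∑ c : ZMod 3, 1 / 3 * Kc p c σ τ := by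
  classical
  unfold step Kc Kw Nb
  refine sum_congr rfl fun c _ => ?_
  congr 1

theorem Kc_nonneg (hp0 : 0 ≤ p) (hp1 : p ≤ 1) (c : ZMod 3) (σ τ : Conf n) : 0 ≤ Kc p c σ τ :=
  sum_nonneg fun ω _ => mul_nonneg (mul_nonneg (pow_nonneg hp0 _) (pow_nonneg (by linarith) _))
    (Kw_nonneg c ω σ τ)

/-! ### stochastic -/

theorem sum_Kw (c : ZMod 3) (ω : Finset (Edge n)) (σ : Conf n) (g : Conf n → ℝ) :
    ∑ τ, Kw c ω σ τ * g τ = (∑ τ ∈ Nb c σ ω, g τ) / ((Nb c σ ω).card : ℝ) := by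
  classical
  have h1 : Nb c σ ω = univ.filter fun τ => Compat σ τ c ω := by
    ext τ
    rw [mem_Nb]
    simp
  have h2 : ∀ τ, Kw c ω σ τ * g τ = if Compat σ τ c ω then g τ / ((Nb c σ ω).card : ℝ)
      else 0 := by
    intro τ
    unfold Kw
    split_ifs
    · ring
    · ring
  simp only [h2]
  rw [← sum_filter, ← h1, sum_div]

theorem sum_Kc (p : ℝ) (c : ZMod 3) (σ : Conf n) (g : Conf n → ℝ) :
    ∑ τ, Kc p c σ τ * g τ = ∑ ω ∈ (elig σ c).powerset,
      p ^ ω.card * (1 - p) ^ ((elig σ c).card - ω.card) *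
        ((∑ τ ∈ Nb c σ ω, g τ) / ((Nb c σ ω).card : ℝ)) := by
  unfold Kc
  simp only [sum_mul]
  rw [sum_comm]
  refine sum_congr rfl fun ω _ => ?_
  rw [← sum_Kw, mul_sum]
  refine sum_congr rfl fun τ _ => ?_
  ring

theorem sum_w (p : ℝ) (s : Finset (Edge n)) :
    ∑ ω ∈ s.powerset, p ^ ω.card * (1 - p) ^ (s.card - ω.card) = 1 := by
  rw [sum_pow_mul_eq_add_pow]
  have : p + (1 - p) = 1 := by ring
  rw [this, one_pow]

/-- if the conditional averages are constant -/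
theorem sum_Kc_const (p : ℝ) (c : ZMod 3) (σ : Conf n) (g : Conf n → ℝ) (m : ℝ)
    (h : ∀ ω ∈ (elig σ c).powerset, ∑ τ ∈ Nb c σ ω, g τ = ((Nb c σ ω).card : ℝ) * m) :
    ∑ τ, Kc p c σ τ * g τ = m := by
  rw [sum_Kc]
  have h1 : ∀ ω ∈ (elig σ c).powerset, p ^ ω.card * (1 - p) ^ ((elig σ c).card - ω.card) *
      ((∑ τ ∈ Nb c σ ω, g τ) / ((Nb c σ ω).card : ℝ)) =
      p ^ ω.card * (1 - p) ^ ((elig σ c).card - ω.card) * m := by
    intro ω hω
    have h2 : ((Nb c σ ω).card : ℝ) ≠ 0 := by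
      have := Nb_pos c σ ω
      positivity
    rw [h ω hω, mul_div_cancel_left₀ _ h2]
  rw [sum_congr rfl h1, ← sum_mul, sum_w, one_mul]

theorem Kc_sum (p : ℝ) (c : ZMod 3) (σ : Conf n) : ∑ τ, Kc p c σ τ = 1 := by
  have := sum_Kc_const p c σ (fun _ => 1) 1 fun ω _ => by
    rw [sum_const, nsmul_eq_mul]
  simpa using this

/-! ### reversible -/

theorem elig_of (hω : ω ⊆ elig σ c) (hc : Compat σ τ c ω) : ω ⊆ elig τ c := by
  intro e he
  have h1 := mem_elig.1 (hω he)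
  rw [mem_elig]
  refine ⟨fun h2 => h1.1 ((hc.c_iff _).1 h2), fun h2 => h1.2.1 ((hc.c_iff _).1 h2), ?_⟩
  have h2 := hc.2 e he
  intro h6
  by_cases h3 : τ e.1 = σ e.1
  · rw [h3, h2.1 h3] at h6
    exact h1.2.2 h6
  · have h4 := (hc.1 e.1).resolve_left h3
    have h5 := (hc.1 (e.1 + ev e.2)).resolve_left fun h7 => h3 (h2.2 h7)
    rw [h4, h5] at h6
    exact h1.2.2 (sub_right_injective h6)

/-- the number of edges inside of the two other colours and inside of `c` -/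
theorem mono_elig (h : ∀ x, τ x = c ↔ σ x = c) :
    mono σ + (elig σ c).card = mono τ + (elig τ c).card := by
  have key : ∀ ζ : Conf n, mono ζ + (elig ζ c).card =
      (univ.filter fun e : Edge n => (ζ e.1 = c ↔ ζ (e.1 + ev e.2) = c)).card := by
    intro ζ
    rw [mono_eq, ← card_union_of_disjoint]
    · congr 1
      ext e
      rw [mem_union, mem_mE, mem_elig, mem_filter]
      constructor
      · rintro (h1 | ⟨h1, h2, -⟩)
        · exact ⟨mem_univ _, by rw [h1]⟩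
        · exact ⟨mem_univ _, by simp [h1, h2]⟩
      · rintro ⟨-, h1⟩
        by_cases h2 : ζ e.1 = ζ (e.1 + ev e.2)
        · exact Or.inl h2
        · right
          by_cases h3 : ζ e.1 = c
          · exact absurd (h3.trans (h1.1 h3).symm) h2
          · exact ⟨h3, fun h4 => h3 (h1.2 h4), h2⟩
    · rw [disjoint_left]
      intro e h1 h2
      exact (mem_elig.1 h2).2.2 (mem_mE.1 h1)
  rw [key, key]
  congr 1
  ext e
  simp only [mem_filter, mem_univ, true_and, h]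

/-- detailed balance -/
theorem Kc_rev (p : ℝ) (c : ZMod 3) (σ τ : Conf n) :
    (1 - p) ^ mono σ * Kc p c σ τ = (1 - p) ^ mono τ * Kc p c τ σ := by
  classical
  have key : ∀ σ τ : Conf n, (1 - p) ^ mono σ * Kc p c σ τ =
      ∑ ω : Finset (Edge n), if ω ⊆ elig σ c ∧ Compat σ τ c ω then
        p ^ ω.card * (1 - p) ^ (mono σ + (elig σ c).card - ω.card) *
          (1 / ((Nb c σ ω).card : ℝ)) else 0 := by
    intro σ τ
    unfold Kc
    rw [mul_sum]
    have h1 : (elig σ c).powerset = univ.filter fun ω => ω ⊆ elig σ c := by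
      ext ω
      simp
    rw [h1, sum_filter]
    refine sum_congr rfl fun ω _ => ?_
    unfold Kw
    by_cases h2 : ω ⊆ elig σ c
    · by_cases h3 : Compat σ τ c ω
      · rw [if_pos h2, if_pos h3, if_pos ⟨h2, h3⟩,
          Nat.add_sub_assoc (card_le_card h2), pow_add]
        ring
      · rw [if_pos h2, if_neg h3, if_neg fun h => h3 h.2]
        ring
    · rw [if_neg h2, if_neg fun h => h2 h.1]
  rw [key, key]
  refine sum_congr rfl fun ω _ => ?_
  by_cases h1 : ω ⊆ elig σ c ∧ Compat σ τ c ω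
  · have h2 := elig_of h1.1 h1.2
    rw [if_pos h1, if_pos ⟨h2, h1.2.symm'⟩, mono_elig (h1.2.c_iff),
      Nb_congr h1.2 fun e he => ?_]
    have := mem_elig.1 (h1.1 he)
    exact ⟨this.1, this.2.1⟩
  · rw [if_neg h1, if_neg]
    rintro ⟨h2, h3⟩
    exact h1 ⟨elig_of h2 h3, h3.symm'⟩

theorem potts_rev (p : ℝ) (c : ZMod 3) (σ τ : Conf n) :
    potts p σ * Kc p c σ τ = potts p τ * Kc p c τ σ := by
  unfold potts
  rw [div_mul_eq_mul_div, div_mul_eq_mul_div, Kc_rev]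

/-! ### permutations of the colours -/

/-- a permutation acts on the configurations -/
def act (φ : Equiv.Perm (ZMod 3)) (σ : Conf n) : Conf n := fun x => φ (σ x)

theorem perm_aff : ∀ (φ : Equiv.Perm (ZMod 3)) (c a : ZMod 3), φ (2 * c - a) = 2 * φ c - φ a := by
  decide

theorem act_inv (φ : Equiv.Perm (ZMod 3)) (σ : Conf n) : act φ⁻¹ (act φ σ) = σ := by
  funext x
  exact φ.symm_apply_apply _

theorem act_inv' (φ : Equiv.Perm (ZMod 3)) (σ : Conf n) : act φ (act φ⁻¹ σ) = σ := by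
  funext x
  exact φ.apply_symm_apply _

theorem act_mul (φ ψ : Equiv.Perm (ZMod 3)) (σ : Conf n) : act φ (act ψ σ) = act (φ * ψ) σ := rfl

/-- as a permutation of the configurations -/
def actE (n : ℕ) (φ : Equiv.Perm (ZMod 3)) : Equiv.Perm (Conf n) where
  toFun := act φ
  invFun := act φ⁻¹
  left_inv := fun σ => by funext x; exact φ.symm_apply_apply _
  right_inv := fun σ => by funext x; exact φ.apply_symm_apply _

theorem sum_act (φ : Equiv.Perm (ZMod 3)) (g : Conf n → ℝ) : ∑ σ, g (act φ σ) = ∑ σ, g σ :=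
  Equiv.sum_comp (actE n φ) g

theorem mono_act (φ : Equiv.Perm (ZMod 3)) (σ : Conf n) : mono (act φ σ) = mono σ := by
  rw [mono_eq, mono_eq]
  congr 1
  ext e
  rw [mem_mE, mem_mE]
  exact φ.injective.eq_iff

theorem potts_act (φ : Equiv.Perm (ZMod 3)) (σ : Conf n) : potts p (act φ σ) = potts p σ := by
  unfold potts
  rw [mono_act]

theorem elig_act (φ : Equiv.Perm (ZMod 3)) (σ : Conf n) (c : ZMod 3) :
    elig (act φ σ) (φ c) = elig σ c := by
  ext e
  rw [mem_elig, mem_elig]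
  show φ _ ≠ φ c ∧ φ _ ≠ φ c ∧ φ _ ≠ φ _ ↔ _
  rw [φ.injective.ne_iff, φ.injective.ne_iff, φ.injective.ne_iff]

theorem compat_act (φ : Equiv.Perm (ZMod 3)) :
    Compat (act φ σ) (act φ τ) (φ c) ω ↔ Compat σ τ c ω := by
  unfold Compat
  have h1 : ∀ x, (act φ τ x = act φ σ x ∨ act φ τ x = 2 * φ c - act φ σ x) ↔
      (τ x = σ x ∨ τ x = 2 * c - σ x) := by
    intro x
    show (φ (τ x) = φ (σ x) ∨ φ (τ x) = 2 * φ c - φ (σ x)) ↔ _
    rw [← perm_aff, φ.injective.eq_iff, φ.injective.eq_iff]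
  have h2 : ∀ x, (act φ τ x = act φ σ x) ↔ τ x = σ x := fun x => φ.injective.eq_iff
  exact and_congr (forall_congr' h1) (forall₂_congr fun e _ => iff_congr (h2 _) (h2 _))

theorem Nb_act (φ : Equiv.Perm (ZMod 3)) (σ : Conf n) (c : ZMod 3) (ω : Finset (Edge n)) :
    (Nb (φ c) (act φ σ) ω).card = (Nb c σ ω).card := by
  symm
  refine card_bij (fun τ _ => act φ τ) (fun τ hτ => ?_) (fun τ _ τ' _ h => ?_) (fun τ hτ => ?_)
  · rw [mem_Nb] at hτ ⊢
    exact (compat_act φ).2 hτ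
  · have := congrArg (act φ⁻¹) h
    rwa [act_inv, act_inv] at this
  · refine ⟨act φ⁻¹ τ, ?_, act_inv' φ τ⟩
    rw [mem_Nb] at hτ ⊢
    rw [← compat_act φ, act_inv']
    exact hτ

theorem Kw_act (φ : Equiv.Perm (ZMod 3)) (σ τ : Conf n) (c : ZMod 3) (ω : Finset (Edge n)) :
    Kw (φ c) ω (act φ σ) (act φ τ) = Kw c ω σ τ := by
  unfold Kw
  by_cases h : Compat σ τ c ω
  · rw [if_pos h, if_pos ((compat_act φ).2 h), Nb_act]
  · rw [if_neg h, if_neg fun h1 => h ((compat_act φ).1 h1)]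

theorem Kc_act (φ : Equiv.Perm (ZMod 3)) (σ τ : Conf n) (c : ZMod 3) :
    Kc p (φ c) (act φ σ) (act φ τ) = Kc p c σ τ := by
  unfold Kc
  rw [elig_act]
  simp only [Kw_act]

theorem step_act (φ : Equiv.Perm (ZMod 3)) (σ τ : Conf n) :
    step p (act φ σ) (act φ τ) = step p σ τ := by
  rw [step_eq, step_eq, ← Equiv.sum_comp φ (fun c => 1 / 3 * Kc p c (act φ σ) (act φ τ))]
  simp only [Kc_act]

/-- the exchange of the two colours different from `c` -/
def sw (c : ZMod 3) : Equiv.Perm (ZMod 3) where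
  toFun a := 2 * c - a
  invFun a := 2 * c - a
  left_inv a := by ring
  right_inv a := by ring

theorem sw_aux (a b c : ZMod 3) (h : b = a ∨ b = 2 * c - a) :
    2 * c - b = a ∨ 2 * c - b = 2 * c - a := by
  revert a b c; decide

/-- the global exchange of the two colours does not change the transition -/
theorem compat_sw (hω : ω ⊆ elig σ c) (h : Compat σ τ c ω) : Compat σ (act (sw c) τ) c ω := by
  refine ⟨fun x => sw_aux _ _ _ (h.1 x), fun e he => ?_⟩
  have h1 := mem_elig.1 (hω he)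
  show 2 * c - τ e.1 = σ e.1 ↔ 2 * c - τ (e.1 + ev e.2) = σ (e.1 + ev e.2)
  rw [ph_aux _ _ _ h1.1 (h.1 _), ph_aux _ _ _ h1.2.1 (h.1 _), h.2 e he]

theorem sw_sw (c : ZMod 3) (τ : Conf n) : act (sw c) (act (sw c) τ) = τ := by
  funext x
  show 2 * c - (2 * c - τ x) = τ x
  ring

theorem Kw_sw (hω : ω ⊆ elig σ c) (τ : Conf n) : Kw c ω σ (act (sw c) τ) = Kw c ω σ τ := by
  unfold Kw
  have h1 : Compat σ (act (sw c) τ) c ω ↔ Compat σ τ c ω := by
    constructor
    · intro h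
      have := compat_sw hω h
      rwa [sw_sw] at this
    · exact compat_sw hω
  by_cases h : Compat σ τ c ω
  · rw [if_pos h, if_pos (h1.2 h)]
  · rw [if_neg h, if_neg fun h2 => h (h1.1 h2)]

theorem Kc_sw (p : ℝ) (c : ZMod 3) (σ τ : Conf n) :
    Kc p c σ (act (sw c) τ) = Kc p c σ τ := by
  unfold Kc
  refine sum_congr rfl fun ω hω => ?_
  rw [Kw_sw (mem_powerset.1 hω)]

/-! ### the quadratic form -/

/-- the scalar product -/
noncomputable def ip (p : ℝ) (f g : Conf n → ℝ) : ℝ := ∑ σ, potts p σ * (f σ * g σ)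

/-- the Dirichlet form, times two -/
noncomputable def dir (p : ℝ) (f : Conf n → ℝ) : ℝ :=
  ∑ σ, ∑ τ, potts p σ * step p σ τ * (f σ - f τ) ^ 2

theorem potts_nonneg (hp1 : p ≤ 1) (σ : Conf n) : 0 ≤ potts p σ :=
  div_nonneg (pow_nonneg (by linarith) _) (sum_nonneg fun _ _ => pow_nonneg (by linarith) _)

/-- the Dirichlet form of one colour -/
theorem dir_c (p : ℝ) (c : ZMod 3) (f : Conf n → ℝ) :
    ∑ σ, ∑ τ, potts p σ * Kc p c σ τ * (f σ - f τ) ^ 2 =
      2 * ip p f f - 2 * ∑ σ, ∑ τ, potts p σ * Kc p c σ τ * (f σ * f τ) := by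
  have h1 : ∀ σ τ, potts p σ * Kc p c σ τ * (f σ - f τ) ^ 2 =
      potts p σ * f σ ^ 2 * Kc p c σ τ + potts p σ * Kc p c σ τ * f τ ^ 2 -
        2 * (potts p σ * Kc p c σ τ * (f σ * f τ)) := by
    intro σ τ
    ring
  simp only [h1, sum_sub_distrib, sum_add_distrib, ← mul_sum]
  have h2 : ∑ σ, potts p σ * f σ ^ 2 * ∑ τ, Kc p c σ τ = ip p f f := by
    unfold ip
    refine sum_congr rfl fun σ _ => ?_
    rw [Kc_sum]
    ring
  have h3 : ∑ σ, ∑ τ, potts p σ * Kc p c σ τ * f τ ^ 2 = ip p f f := by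
    rw [sum_comm]
    unfold ip
    refine sum_congr rfl fun τ _ => ?_
    rw [← sum_mul]
    have : ∑ σ, potts p σ * Kc p c σ τ = potts p τ := by
      simp only [potts_rev p c _ τ]
      rw [← mul_sum, Kc_sum, mul_one]
    rw [this]
    ring
  rw [h2, h3]
  ring

theorem dir_eq (p : ℝ) (f : Conf n → ℝ) :
    dir p f = ∑ c : ZMod 3, 1 / 3 * ∑ σ, ∑ τ, potts p σ * Kc p c σ τ * (f σ - f τ) ^ 2 := by
  unfold dir
  have h1 : ∀ σ τ : Conf n, potts p σ * step p σ τ * (f σ - f τ) ^ 2 =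
      ∑ c : ZMod 3, 1 / 3 * (potts p σ * Kc p c σ τ * (f σ - f τ) ^ 2) := by
    intro σ τ
    rw [step_eq, mul_sum, sum_mul]
    refine sum_congr rfl fun c _ => ?_
    ring
  have h2 : ∀ σ : Conf n, ∑ τ, ∑ c : ZMod 3, 1 / 3 * (potts p σ * Kc p c σ τ * (f σ - f τ) ^ 2) =
      ∑ c : ZMod 3, ∑ τ, 1 / 3 * (potts p σ * Kc p c σ τ * (f σ - f τ) ^ 2) :=
    fun σ => sum_comm
  simp only [h1, h2]
  rw [sum_comm]
  refine sum_congr rfl fun c _ => ?_
  rw [mul_sum]
  refine sum_congr rfl fun σ _ => ?_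
  rw [mul_sum]

/-- one colour: the form is bounded by the symmetrised function -/
theorem cross_le (hp0 : 0 ≤ p) (hp1 : p ≤ 1) (c : ZMod 3) (f : Conf n → ℝ) :
    ∑ σ, ∑ τ, potts p σ * Kc p c σ τ * (f σ * f τ) ≤
      1 / 2 * ip p f f + 1 / 2 * ip p f (fun σ => f (act (sw c) σ)) := by
  set B : (Conf n → ℝ) → (Conf n → ℝ) → ℝ := fun f g =>
    ∑ σ, ∑ τ, potts p σ * Kc p c σ τ * (f σ * g τ) with hB
  set g : Conf n → ℝ := fun σ => f (act (sw c) σ) with hg
  have hBsymm : ∀ f g, B f g = B g f := by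
    intro f g
    show ∑ σ, ∑ τ, potts p σ * Kc p c σ τ * (f σ * g τ) =
      ∑ σ, ∑ τ, potts p σ * Kc p c σ τ * (g σ * f τ)
    rw [sum_comm]
    refine sum_congr rfl fun τ _ => sum_congr rfl fun σ _ => ?_
    rw [potts_rev p c σ τ]
    ring
  have hBg : ∀ h, B h g = B h f := by
    intro h
    show ∑ σ, ∑ τ, potts p σ * Kc p c σ τ * (h σ * f (act (sw c) τ)) =
      ∑ σ, ∑ τ, potts p σ * Kc p c σ τ * (h σ * f τ)
    refine sum_congr rfl fun σ _ => ?_
    rw [← sum_act (sw c) (fun τ => potts p σ * Kc p c σ τ * (h σ * f τ))]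
    refine sum_congr rfl fun τ _ => ?_
    rw [Kc_sw]
  -- the symmetrised function
  have h1 : B (fun σ => 1 / 2 * (f σ + g σ)) (fun σ => 1 / 2 * (f σ + g σ)) = B f f := by
    have e1 : B (fun σ => 1 / 2 * (f σ + g σ)) (fun σ => 1 / 2 * (f σ + g σ)) =
        1 / 4 * (B f f + B f g + (B g f + B g g)) := by
      show ∑ σ, ∑ τ, potts p σ * Kc p c σ τ * ((1 / 2 * (f σ + g σ)) * (1 / 2 * (f τ + g τ))) =
        1 / 4 * (∑ σ, ∑ τ, potts p σ * Kc p c σ τ * (f σ * f τ) +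
        ∑ σ, ∑ τ, potts p σ * Kc p c σ τ * (f σ * g τ) +
        (∑ σ, ∑ τ, potts p σ * Kc p c σ τ * (g σ * f τ) +
        ∑ σ, ∑ τ, potts p σ * Kc p c σ τ * (g σ * g τ)))
      simp only [mul_sum, ← sum_add_distrib]
      refine sum_congr rfl fun σ _ => sum_congr rfl fun τ _ => ?_
      ring
    rw [e1, hBg f, hBsymm g f, hBg f, hBg g, hBsymm g f, hBg f]
    ring
  have h2 := dir_c p c (fun σ => 1 / 2 * (f σ + g σ))
  have h3 : 0 ≤ ∑ σ, ∑ τ, potts p σ * Kc p c σ τ *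
      (1 / 2 * (f σ + g σ) - 1 / 2 * (f τ + g τ)) ^ 2 :=
    sum_nonneg fun σ _ => sum_nonneg fun τ _ => mul_nonneg
      (mul_nonneg (potts_nonneg hp1 σ) (Kc_nonneg hp0 hp1 c σ τ)) (sq_nonneg _)
  have h4 : ip p (fun σ => 1 / 2 * (f σ + g σ)) (fun σ => 1 / 2 * (f σ + g σ)) =
      1 / 2 * ip p f f + 1 / 2 * ip p f g := by
    have e1 : ip p g g = ip p f f := by
      unfold ip
      rw [← sum_act (sw c) (fun σ => potts p σ * (f σ * f σ))]
      refine sum_congr rfl fun σ _ => ?_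
      rw [potts_act]
    have e2 : ip p (fun σ => 1 / 2 * (f σ + g σ)) (fun σ => 1 / 2 * (f σ + g σ)) =
        1 / 4 * (ip p f f + 2 * ip p f g + ip p g g) := by
      unfold ip
      simp only [mul_sum, ← sum_add_distrib]
      refine sum_congr rfl fun σ _ => ?_
      ring
    rw [e2, e1]
    ring
  have h5 : B f f = ∑ σ, ∑ τ, potts p σ * Kc p c σ τ * (f σ * f τ) := rfl
  have h6 : B (fun σ => 1 / 2 * (f σ + g σ)) (fun σ => 1 / 2 * (f σ + g σ)) =
    ∑ σ, ∑ τ, potts p σ * Kc p c σ τ * ((1 / 2 * (f σ + g σ)) * (1 / 2 * (f τ + g τ))) := rfl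
  rw [← h5, ← h1, ← h4, h6]
  linarith

/-- the average over the permutations vanishes -/
def ZeroAv (f : Conf n → ℝ) : Prop := ∀ σ, ∑ φ : Equiv.Perm (ZMod 3), f (act φ σ) = 0

/-- the rotations -/
def rot3 (k : ZMod 3) : Equiv.Perm (ZMod 3) := Equiv.addRight k

theorem perm_univ : (univ : Finset (Equiv.Perm (ZMod 3))) =
    (univ.image rot3) ∪ (univ.image sw) := by
  decide

theorem sum_perm (g : Equiv.Perm (ZMod 3) → ℝ) :
    ∑ φ : Equiv.Perm (ZMod 3), g φ = ∑ k : ZMod 3, g (rot3 k) + ∑ c : ZMod 3, g (sw c) := by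
  rw [perm_univ, sum_union (by decide), sum_image (by decide), sum_image (by decide)]

theorem rot3_add (k l : ZMod 3) (σ : Conf n) : act (rot3 k) (act (rot3 l) σ) =
    act (rot3 (l + k)) σ := by
  funext x
  show σ x + l + k = σ x + (l + k)
  ring

/-- off the colour-symmetric functions the dynamics contracts by `1/2` -/
theorem half (hp0 : 0 ≤ p) (hp1 : p ≤ 1) {f : Conf n → ℝ} (hf : ZeroAv f) :
    ip p f f ≤ dir p f := by
  have h1 : dir p f = 2 * ip p f f - 2 / 3 * ∑ c : ZMod 3,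
      ∑ σ, ∑ τ, potts p σ * Kc p c σ τ * (f σ * f τ) := by
    rw [dir_eq]
    have e1 : ∀ c : ZMod 3, 1 / 3 * ∑ σ, ∑ τ, potts p σ * Kc p c σ τ * (f σ - f τ) ^ 2 =
        2 / 3 * ip p f f - 2 / 3 * ∑ σ, ∑ τ, potts p σ * Kc p c σ τ * (f σ * f τ) := by
      intro c
      rw [dir_c]
      ring
    simp only [e1]
    rw [sum_sub_distrib, ← mul_sum, ← mul_sum, sum_const, card_univ, ZMod.card, nsmul_eq_mul]
    push_cast
    ring
  have h2 : ∑ c : ZMod 3, ∑ σ, ∑ τ, potts p σ * Kc p c σ τ * (f σ * f τ) ≤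
      ∑ c : ZMod 3, (1 / 2 * ip p f f + 1 / 2 * ip p f (fun σ => f (act (sw c) σ))) :=
    sum_le_sum fun c _ => cross_le hp0 hp1 c f
  rw [sum_add_distrib, ← mul_sum, ← mul_sum, sum_const, card_univ, ZMod.card,
    nsmul_eq_mul] at h2
  -- the swaps
  have h3 : ∑ c : ZMod 3, ip p f (fun σ => f (act (sw c) σ)) =
      -∑ k : ZMod 3, ip p f (fun σ => f (act (rot3 k) σ)) := by
    have e1 : ∑ φ : Equiv.Perm (ZMod 3), ip p f (fun σ => f (act φ σ)) = 0 := by
      unfold ip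
      rw [sum_comm]
      refine sum_eq_zero fun σ _ => ?_
      rw [← mul_sum, ← mul_sum, hf σ, mul_zero, mul_zero]
    rw [sum_perm] at e1
    linarith
  -- the rotations
  have h4 : 0 ≤ ∑ k : ZMod 3, ip p f (fun σ => f (act (rot3 k) σ)) := by
    have e1 : ∀ l : ZMod 3, ∑ k : ZMod 3, ip p f (fun σ => f (act (rot3 k) σ)) =
        ∑ k : ZMod 3, ip p (fun σ => f (act (rot3 l) σ)) (fun σ => f (act (rot3 k) σ)) := by
      intro l
      have e2 : ∀ k : ZMod 3, ip p f (fun σ => f (act (rot3 k) σ)) =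
          ip p (fun σ => f (act (rot3 l) σ)) (fun σ => f (act (rot3 (l + k)) σ)) := by
        intro k
        unfold ip
        rw [← sum_act (rot3 l) (fun σ => potts p σ * (f σ * f (act (rot3 k) σ)))]
        refine sum_congr rfl fun σ _ => ?_
        rw [potts_act, rot3_add]
      simp only [e2]
      exact Equiv.sum_comp (Equiv.addLeft l)
        (fun k => ip p (fun σ => f (act (rot3 l) σ)) (fun σ => f (act (rot3 k) σ)))
    have e3 : 3 * ∑ k : ZMod 3, ip p f (fun σ => f (act (rot3 k) σ)) =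
        ∑ σ, potts p σ * (∑ k : ZMod 3, f (act (rot3 k) σ)) ^ 2 := by
      have e4 : 3 * ∑ k : ZMod 3, ip p f (fun σ => f (act (rot3 k) σ)) =
          ∑ l : ZMod 3, ∑ k : ZMod 3,
            ip p (fun σ => f (act (rot3 l) σ)) (fun σ => f (act (rot3 k) σ)) := by
        rw [← sum_congr rfl fun l _ => e1 l, sum_const, card_univ, ZMod.card, nsmul_eq_mul]
        push_cast
        rfl
      rw [e4]
      unfold ip
      have e5 : ∀ σ : Conf n, potts p σ * (∑ k : ZMod 3, f (act (rot3 k) σ)) ^ 2 =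
          ∑ l : ZMod 3, ∑ k : ZMod 3, potts p σ * (f (act (rot3 l) σ) * f (act (rot3 k) σ)) := by
        intro σ
        rw [sq, sum_mul_sum, mul_sum]
        refine sum_congr rfl fun l _ => ?_
        rw [mul_sum]
      simp only [e5]
      symm
      rw [sum_comm]
      refine sum_congr rfl fun l _ => ?_
      rw [sum_comm]
    have e6 : 0 ≤ ∑ σ, potts p σ * (∑ k : ZMod 3, f (act (rot3 k) σ)) ^ 2 :=
      sum_nonneg fun σ _ => mul_nonneg (potts_nonneg hp1 σ) (sq_nonneg _)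
    linarith
  rw [h1]
  push_cast at h2
  rw [h3] at h2
  linarith

end Pool.Agent.WSK
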