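import Pool.Agent.Lib.MP_0209a0_pr.Mg.G002

/-!
The variance over all proper colourings.
-/

set_option autoImplicit false
set_option linter.unusedSectionVars false

namespace Pool.Agent.WSK

open Finset

variable {n : ℕ} [NeZero n] {σ : Conf n} {c : ZMod 3} {X Y Z K : Finset (Site n)} {y : Site n}

/-- the flip of the first clusters -/
noncomputable def Fj (c : ZMod 3) (j : ℕ) (σ : Conf n) : Conf n := fl c (Sj c σ j) σ

theorem Fj_mem (c : ZMod 3) (j : ℕ) (h : Pr σ) : Fj c j σ ∈ Cls c σ := (Sj_CS c σ j).fl_mem h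

theorem Fj_inj (c : ZMod 3) (j : ℕ) : Set.InjOn (Fj (n := n) c j) (Om n) := by
  intro σ hσ σ' hσ' he
  rw [mem_coe, mem_Om] at hσ hσ'
  have h1 := (mem_Cls.1 (Fj_mem c j hσ)).2
  have h2 := (mem_Cls.1 (Fj_mem c j hσ')).2
  rw [← he] at h2
  have h3 : ∀ x, σ' x = c ↔ σ x = c := fun x => (h2 x).symm.trans (h1 x)
  have h4 : Fj c j σ' = fl c (Sj c σ j) σ' := by
    unfold Fj
    rw [Sj_congr h3]
  have h5 : fl c (Sj c σ j) σ = fl c (Sj c σ j) σ' := by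
    rw [← h4]
    exact he
  have h6 := congrArg (fl c (Sj c σ j)) h5
  rwa [fl_fl, fl_fl] at h6

theorem all_le (hn : 3 ≤ n) (he : Even n) (f : Conf n → ℝ) :
    ∃ m : ℝ, ∑ σ ∈ Om n, (f σ - m) ^ 2 ≤ (2 * (n : ℝ) + 1) * (16 * (n : ℝ) ^ 8 + 24) * Df f := by
  classical
  obtain ⟨m, hm⟩ := base hn f
  refine ⟨m, ?_⟩
  have h1 : ∀ σ ∈ Om n, (f σ - m) ^ 2 ≤ ∑ j ∈ range (2 * n + 1),
      (2 * (f σ - f (Fj 0 j σ)) ^ 2 +
        2 * (if Hgt (Fj 0 j σ) then (f (Fj 0 j σ) - m) ^ 2 else 0)) := by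
    intro σ hσ
    rw [mem_Om] at hσ
    obtain ⟨j, hj, hj'⟩ := exists_j he hσ 0
    refine le_trans ?_ (single_le_sum (f := fun j => 2 * (f σ - f (Fj 0 j σ)) ^ 2 +
        2 * (if Hgt (Fj 0 j σ) then (f (Fj 0 j σ) - m) ^ 2 else 0)) (fun j _ => ?_)
        (mem_range.2 (Nat.lt_succ_of_le hj)))
    · have h2 : (if Hgt (Fj 0 j σ) then (f (Fj 0 j σ) - m) ^ 2 else 0) =
          (f (Fj 0 j σ) - m) ^ 2 := if_pos hj'
      simp only [h2]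
      nlinarith [sq_nonneg ((f σ - f (Fj 0 j σ)) - (f (Fj 0 j σ) - m))]
    · have h2 : 0 ≤ (if Hgt (Fj 0 j σ) then (f (Fj 0 j σ) - m) ^ 2 else 0) := by
        split_ifs
        · exact sq_nonneg _
        · exact le_rfl
      have h3 := sq_nonneg (f σ - f (Fj 0 j σ))
      linarith
  have h2 : ∀ j, ∑ σ ∈ Om n, (f σ - f (Fj 0 j σ)) ^ 2 ≤ 4 * Df f := fun j =>
    (inj_le f subset_rfl (fun σ hσ => Fj_mem 0 j (mem_Om.1 hσ)) (Fj_inj 0 j)).trans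
      (by linarith [Dc_le_Df 0 f])
  have h3 : ∀ j, ∑ σ ∈ Om n, (if Hgt (Fj 0 j σ) then (f (Fj 0 j σ) - m) ^ 2 else 0) ≤
      (8 * (n : ℝ) ^ 8 + 8) * Df f := by
    intro j
    refine le_trans ?_ hm
    rw [← sum_filter]
    have e : ∑ σ ∈ (Om n).filter (fun σ => Hgt (Fj 0 j σ)), (f (Fj 0 j σ) - m) ^ 2 =
        ∑ ζ ∈ ((Om n).filter (fun σ => Hgt (Fj 0 j σ))).image (Fj 0 j), (f ζ - m) ^ 2 := by
      rw [sum_image]
      exact (Fj_inj 0 j).mono (coe_subset.2 (filter_subset _ _))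
    rw [e]
    refine sum_le_sum_of_subset_of_nonneg ?_ fun _ _ _ => sq_nonneg _
    intro ζ hζ
    obtain ⟨σ, hσ, rfl⟩ := mem_image.1 hζ
    exact mem_Om0.2 (mem_filter.1 hσ).2
  calc ∑ σ ∈ Om n, (f σ - m) ^ 2 ≤ ∑ σ ∈ Om n, ∑ j ∈ range (2 * n + 1),
      (2 * (f σ - f (Fj 0 j σ)) ^ 2 +
        2 * (if Hgt (Fj 0 j σ) then (f (Fj 0 j σ) - m) ^ 2 else 0)) := sum_le_sum h1
    _ = ∑ j ∈ range (2 * n + 1), (2 * ∑ σ ∈ Om n, (f σ - f (Fj 0 j σ)) ^ 2 +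
        2 * ∑ σ ∈ Om n, (if Hgt (Fj 0 j σ) then (f (Fj 0 j σ) - m) ^ 2 else 0)) := by
        rw [sum_comm]
        refine sum_congr rfl fun j _ => ?_
        rw [sum_add_distrib, mul_sum, mul_sum]
    _ ≤ ∑ j ∈ range (2 * n + 1), (2 * (4 * Df f) + 2 * ((8 * (n : ℝ) ^ 8 + 8) * Df f)) := by
        refine sum_le_sum fun j _ => ?_
        have := h2 j
        have := h3 j
        linarith
    _ = (2 * (n : ℝ) + 1) * (16 * (n : ℝ) ^ 8 + 24) * Df f := by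
        rw [sum_const, card_range, nsmul_eq_mul]
        push_cast
        ring

theorem all_le' (hn : 4 ≤ n) (he : Even n) (f : Conf n → ℝ) :
    ∃ m : ℝ, ∑ σ ∈ Om n, (f σ - m) ^ 2 ≤ 37 * (n : ℝ) ^ 9 * Df f := by
  obtain ⟨m, hm⟩ := all_le (by omega) he f
  refine ⟨m, hm.trans (mul_le_mul_of_nonneg_right ?_ (Df_nonneg f))⟩
  have h4 : (4 : ℝ) ≤ n := by exact_mod_cast hn
  have h8 : (4 : ℝ) ^ 8 ≤ (n : ℝ) ^ 8 := pow_le_pow_left₀ (by norm_num) h4 8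
  have h1 : 2 * (n : ℝ) + 1 ≤ (9 / 4) * n := by linarith
  have h2 : 16 * (n : ℝ) ^ 8 + 24 ≤ (16 + 1 / 1000) * (n : ℝ) ^ 8 := by
    norm_num at h8
    linarith
  have h3 : (0 : ℝ) ≤ 16 * (n : ℝ) ^ 8 + 24 := by positivity
  calc (2 * (n : ℝ) + 1) * (16 * (n : ℝ) ^ 8 + 24)
      ≤ (9 / 4 * n) * ((16 + 1 / 1000) * (n : ℝ) ^ 8) :=
        mul_le_mul h1 h2 h3 (by positivity)
    _ = (9 / 4 * (16 + 1 / 1000)) * (n : ℝ) ^ 9 := by ring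
    _ ≤ 37 * (n : ℝ) ^ 9 := by
        refine mul_le_mul_of_nonneg_right (by norm_num) (by positivity)

end Pool.Agent.WSK
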